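import Mathlib

set_option autoImplicit false

open Polynomial Matrix

namespace Pool.Agent.H695R3.ST

/-- one-step transfer matrix with the energy as variable -/
noncomputable def T (a : ℝ) : Matrix (Fin 2) (Fin 2) ℝ[X] := !![X - C a, -1; 1, 0]

/-- the matrix unit -/
noncomputable def E11 : Matrix (Fin 2) (Fin 2) ℝ[X] := !![1, 0; 0, 0]

/-- transfer matrix over the sites `m, …, m + k - 1` -/
noncomputable def P (V : ℤ → ℝ) (m : ℤ) : ℕ → Matrix (Fin 2) (Fin 2) ℝ[X]
  | 0 => 1
  | k + 1 => T (V (m + k)) * P V m k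

lemma P_zero (V : ℤ → ℝ) (m : ℤ) : P V m 0 = 1 := rfl

lemma P_succ (V : ℤ → ℝ) (m : ℤ) (k : ℕ) : P V m (k + 1) = T (V (m + k)) * P V m k := rfl

lemma P_add (V : ℤ → ℝ) (m : ℤ) (a b : ℕ) : P V m (a + b) = P V (m + a) b * P V m a := by
  induction b with
  | zero => simp [P_zero]
  | succ b ih =>
    rw [← add_assoc, P_succ, P_succ, ih, Matrix.mul_assoc]
    congr 2
    push_cast
    ring_nf

lemma P_one (V : ℤ → ℝ) (m : ℤ) : P V m 1 = T (V m) := by
  rw [P_succ, P_zero, Matrix.mul_one]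
  simp

lemma P_succ' (V : ℤ → ℝ) (m : ℤ) (k : ℕ) : P V m (k + 1) = P V (m + 1) k * T (V m) := by
  rw [add_comm, P_add, P_one]
  simp

lemma P_congr {V V' : ℤ → ℝ} {m m' : ℤ} {k : ℕ}
    (h : ∀ j : ℕ, j < k → V (m + j) = V' (m' + j)) : P V m k = P V' m' k := by
  induction k with
  | zero => rfl
  | succ k ih =>
    rw [P_succ, P_succ, ih fun j hj => h j (hj.trans (Nat.lt_succ_self k)),
      h k (Nat.lt_succ_self k)]

lemma det_T (a : ℝ) : (T a).det = 1 := by
  rw [T, Matrix.det_fin_two_of]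
  ring

lemma det_P (V : ℤ → ℝ) (m : ℤ) (k : ℕ) : (P V m k).det = 1 := by
  induction k with
  | zero => simp [P_zero]
  | succ k ih => rw [P_succ, Matrix.det_mul, ih, det_T, one_mul]

/-- the discriminant -/
noncomputable def D (V : ℤ → ℝ) (m : ℤ) (q : ℕ) : ℝ[X] := (P V m q).trace

lemma P_period {V : ℤ → ℝ} {q : ℕ} (hV : ∀ n, V (n + q) = V n) (m : ℤ) (k : ℕ) :
    P V (m + q) k = P V m k := by
  apply P_congr
  intro j _
  rw [add_right_comm, hV]

lemma P_period_mul {V : ℤ → ℝ} {q : ℕ} (hV : ∀ n, V (n + q) = V n) (m : ℤ) (c : ℤ) (k : ℕ) :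
    P V (m + c * q) k = P V m k := by
  apply P_congr
  intro j _
  have hp : Function.Periodic V (q : ℤ) := hV
  have := hp.int_mul c (m + j)
  rw [Int.cast_id] at this
  rw [← this]
  congr 1
  ring

lemma D_succ {V : ℤ → ℝ} {q : ℕ} (hq : 1 ≤ q) (hV : ∀ n, V (n + q) = V n) (m : ℤ) :
    D V (m + 1) q = D V m q := by
  obtain ⟨k, rfl⟩ : ∃ k, q = k + 1 := ⟨q - 1, by omega⟩
  unfold D
  rw [P_succ' V m k, P_succ V (m + 1) k, Matrix.trace_mul_comm]
  have : V (m + 1 + k) = V m := by
    rw [← hV m]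
    congr 1
    push_cast
    ring
  rw [this]

lemma D_const {V : ℤ → ℝ} {q : ℕ} (hq : 1 ≤ q) (hV : ∀ n, V (n + q) = V n) (m : ℤ) :
    D V m q = D V 0 q := by
  induction m using Int.induction_on with
  | zero => rfl
  | succ i ih => rw [D_succ hq hV, ih]
  | pred i ih =>
    rw [← ih]
    have := D_succ hq hV (-(i : ℤ) - 1)
    rw [sub_add_cancel] at this
    rw [this]

/-! ### degrees -/

lemma deg_P (V : ℤ → ℝ) (m : ℤ) (k : ℕ) :
    (P V m k 0 0).Monic ∧ (P V m k 0 0).degree = (k : WithBot ℕ) ∧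
      (P V m k 1 0).degree < (k : WithBot ℕ) ∧ (P V m k 0 1).degree < (k : WithBot ℕ) ∧
      (P V m k 1 1).degree < ((k + 1 : ℕ) : WithBot ℕ) := by
  induction k with
  | zero =>
    simp only [P_zero]
    refine ⟨by simp, by simp, by simp, by simp, ?_⟩
    simp
  | succ k ih =>
    obtain ⟨h1, h2, h3, h4, h5⟩ := ih
    have e00 : P V m (k + 1) 0 0 = (X - C (V (m + k))) * P V m k 0 0 - P V m k 1 0 := by
      rw [P_succ, Matrix.mul_apply, Fin.sum_univ_two]
      simp [T]
      ring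
    have e10 : P V m (k + 1) 1 0 = P V m k 0 0 := by
      rw [P_succ, Matrix.mul_apply, Fin.sum_univ_two]
      simp [T]
    have e01 : P V m (k + 1) 0 1 = (X - C (V (m + k))) * P V m k 0 1 - P V m k 1 1 := by
      rw [P_succ, Matrix.mul_apply, Fin.sum_univ_two]
      simp [T]
      ring
    have e11 : P V m (k + 1) 1 1 = P V m k 0 1 := by
      rw [P_succ, Matrix.mul_apply, Fin.sum_univ_two]
      simp [T]
    have hX : (X - C (V (m + k))).degree = 1 := degree_X_sub_C _
    have hd : ((X - C (V (m + k))) * P V m k 0 0).degree = ((k + 1 : ℕ) : WithBot ℕ) := by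
      rw [degree_mul, hX, h2]
      push_cast
      rw [add_comm]
    have hlt : (P V m k 1 0).degree < ((X - C (V (m + k))) * P V m k 0 0).degree := by
      rw [hd]
      exact h3.trans (by exact_mod_cast Nat.lt_succ_self k)
    refine ⟨?_, ?_, ?_, ?_, ?_⟩
    · rw [e00]
      exact ((monic_X_sub_C _).mul h1).sub_of_left hlt
    · rw [e00, degree_sub_eq_left_of_degree_lt hlt, hd]
    · rw [e10, h2]
      exact_mod_cast Nat.lt_succ_self k
    · rw [e01]
      refine lt_of_le_of_lt (degree_sub_le _ _) (max_lt ?_ h5)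
      by_cases h0 : P V m k 0 1 = 0
      · rw [h0, mul_zero, degree_zero]
        exact WithBot.bot_lt_coe _
      · rw [degree_eq_natDegree h0] at h4
        rw [degree_mul, hX, degree_eq_natDegree h0]
        have h5 : (P V m k 0 1).natDegree < k := by exact_mod_cast h4
        have h6 : 1 + (P V m k 0 1).natDegree < k + 1 := by omega
        exact_mod_cast h6
    · rw [e11]
      exact h4.trans (by exact_mod_cast (by omega : k < k + 1 + 1))

lemma D_monic (V : ℤ → ℝ) (m : ℤ) {q : ℕ} (hq : 1 ≤ q) :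
    (D V m q).Monic ∧ (D V m q).natDegree = q := by
  obtain ⟨k, rfl⟩ : ∃ k, q = k + 1 := ⟨q - 1, by omega⟩
  obtain ⟨h1, h2, -, -, -⟩ := deg_P V m (k + 1)
  obtain ⟨-, -, -, h4, -⟩ := deg_P V m k
  have e11 : P V m (k + 1) 1 1 = P V m k 0 1 := by
    rw [P_succ, Matrix.mul_apply, Fin.sum_univ_two]
    simp [T]
  have hlt : (P V m (k + 1) 1 1).degree < (P V m (k + 1) 0 0).degree := by
    rw [e11, h2]
    exact h4.trans (by exact_mod_cast Nat.lt_succ_self k)
  have hD : D V m (k + 1) = P V m (k + 1) 0 0 + P V m (k + 1) 1 1 := by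
    unfold D
    rw [Matrix.trace_fin_two]
  refine ⟨?_, ?_⟩
  · rw [hD]; exact h1.add_of_left hlt
  · rw [hD, natDegree_add_eq_left_of_degree_lt hlt]
    exact natDegree_eq_of_degree_eq_some h2

/-! ### the derivative of the discriminant -/

lemma T_deriv (a : ℝ) : (T a).map derivative = E11 := by
  ext i j
  fin_cases i <;> fin_cases j <;> simp [T, E11]

lemma map_deriv_mul (A B : Matrix (Fin 2) (Fin 2) ℝ[X]) :
    (A * B).map derivative = A.map derivative * B + A * B.map derivative := by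
  ext1 i j
  simp only [Matrix.map_apply, Matrix.mul_apply, Matrix.add_apply, Fin.sum_univ_two, derivative_add,
    derivative_mul]
  ring

lemma P_deriv (V : ℤ → ℝ) (m : ℤ) (k : ℕ) :
    (P V m k).map derivative =
      ∑ j ∈ Finset.range k, P V (m + j + 1) (k - 1 - j) * (E11 * P V m j) := by
  induction k with
  | zero =>
    rw [Finset.sum_range_zero, P_zero]
    ext1 i j
    fin_cases i <;> fin_cases j <;> simp
  | succ k ih =>
    have hterm : ∀ j ∈ Finset.range k, P V (m + j + 1) (k + 1 - 1 - j) * (E11 * P V m j) =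
        T (V (m + k)) * (P V (m + j + 1) (k - 1 - j) * (E11 * P V m j)) := by
      intro j hj
      have hj' := Finset.mem_range.1 hj
      have e1 : k + 1 - 1 - j = (k - 1 - j) + 1 := by omega
      have e2 : m + j + 1 + ((k - 1 - j : ℕ) : ℤ) = m + k := by omega
      rw [e1, P_succ, e2, Matrix.mul_assoc]
    have e1 : k + 1 - 1 - k = 0 := by omega
    rw [Finset.sum_range_succ, Finset.sum_congr rfl hterm, ← Finset.mul_sum, ← ih, e1, P_zero,
      Matrix.one_mul, P_succ, map_deriv_mul, T_deriv, add_comm]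

lemma D_deriv {V : ℤ → ℝ} {q : ℕ} (hV : ∀ n, V (n + q) = V n) (m : ℤ) :
    derivative (D V m q) = -∑ j ∈ Finset.range q, P V (m + j) q 0 1 := by
  have h1 : derivative (D V m q) = ((P V m q).map derivative).trace := by
    unfold D
    rw [Matrix.trace_fin_two, Matrix.trace_fin_two, derivative_add]
    rfl
  rw [h1, P_deriv, Matrix.trace_sum, ← Finset.sum_neg_distrib]
  apply Finset.sum_congr rfl
  intro j hj
  have hj' := Finset.mem_range.1 hj
  rw [Matrix.trace_mul_comm, Matrix.mul_assoc]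
  have e1 : P V m j * P V (m + j + 1) (q - 1 - j) = P V (m + j + 1) (q - 1) := by
    have e2 : q - 1 = (q - 1 - j) + j := by omega
    conv_rhs => rw [e2]
    rw [P_add]
    congr 1
    have e3 : m + j + 1 + ((q - 1 - j : ℕ) : ℤ) = m + q := by omega
    rw [e3, P_period hV]
  rw [e1]
  obtain ⟨r, hr⟩ : ∃ r, q = r + 1 := ⟨q - 1, by omega⟩
  have e4 : q - 1 = r := by omega
  have e5 : P V (m + j) q 0 1 = -(P V (m + j + 1) (q - 1) 0 0) := by
    rw [e4]
    conv_lhs => rw [hr]
    rw [P_succ', Matrix.mul_apply, Fin.sum_univ_two]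
    simp [T]
  rw [e5, neg_neg, Matrix.trace_fin_two, Matrix.mul_apply, Matrix.mul_apply, Fin.sum_univ_two,
    Fin.sum_univ_two]
  simp [E11]

end Pool.Agent.H695R3.ST
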