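import Mathlib
import Pool.Agent.H695R3.ST.Alg

set_option autoImplicit false

open Polynomial Matrix

namespace Pool.Agent.H695R3.ST

lemma P_entry (V : ℤ → ℝ) (m : ℤ) (k : ℕ) :
    P V m (k + 1) 0 0 = (X - C (V (m + k))) * P V m k 0 0 - P V m k 1 0 ∧
    P V m (k + 1) 0 1 = (X - C (V (m + k))) * P V m k 0 1 - P V m k 1 1 ∧
    P V m (k + 1) 1 0 = P V m k 0 0 ∧ P V m (k + 1) 1 1 = P V m k 0 1 := by
  refine ⟨?_, ?_, ?_, ?_⟩ <;>
  · rw [P_succ, Matrix.mul_apply, Fin.sum_univ_two]
    simp [T]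
    try ring

lemma twine {V : ℤ → ℝ} {q : ℕ} (hV : ∀ n, V (n + q) = V n) (m : ℤ) (j : ℕ) :
    P V (m + j) q * P V m j = P V m j * P V m q := by
  rw [← P_add, add_comm j q, P_add, P_period hV]

lemma entry_formula {V : ℤ → ℝ} {q : ℕ} (hV : ∀ n, V (n + q) = V n) (m : ℤ) (j : ℕ) :
    P V (m + j) q 0 1 = P V m j 0 0 * (P V m j 0 0 * P V m q 0 1 + P V m j 0 1 * P V m q 1 1) -
      P V m j 0 1 * (P V m j 0 0 * P V m q 0 0 + P V m j 0 1 * P V m q 1 0) := by
  have h := twine hV m j
  have h00 := congrFun (congrFun h 0) 0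
  have h01 := congrFun (congrFun h 0) 1
  have hd := det_P V m j
  rw [Matrix.det_fin_two] at hd
  simp only [Matrix.mul_apply, Fin.sum_univ_two] at h00 h01
  linear_combination (P V m j 0 0) * h01 - (P V m j 0 1) * h00 - (P V (m + j) q 0 1) * hd

lemma eval_D (V : ℤ → ℝ) (m : ℤ) (q : ℕ) (E : ℝ) :
    (D V m q).eval E = (P V m q 0 0).eval E + (P V m q 1 1).eval E := by
  unfold D
  rw [Matrix.trace_fin_two, eval_add]

lemma eval_det (V : ℤ → ℝ) (m : ℤ) (q : ℕ) (E : ℝ) :
    (P V m q 0 0).eval E * (P V m q 1 1).eval E - (P V m q 0 1).eval E * (P V m q 1 0).eval E = 1 := by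
  have hd := det_P V m q
  rw [Matrix.det_fin_two] at hd
  have := congrArg (eval E) hd
  simpa using this

/-- If `|D| ≤ 2` and `D' = 0`, the monodromy matrix is scalar. -/
theorem crit {V : ℤ → ℝ} {q : ℕ} (hq : 2 ≤ q) (hV : ∀ n, V (n + q) = V n) (m : ℤ) {E : ℝ}
    (hE : ((D V m q).eval E) ^ 2 ≤ 4) (h0 : (derivative (D V m q)).eval E = 0) :
    (P V m q 0 1).eval E = 0 ∧ (P V m q 1 0).eval E = 0 ∧
      (P V m q 0 0).eval E = (P V m q 1 1).eval E := by
  set a := (P V m q 0 0).eval E with ha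
  set b := (P V m q 0 1).eval E with hb
  set c := (P V m q 1 0).eval E with hc
  set d := (P V m q 1 1).eval E with hd
  have hdet : a * d - b * c = 1 := eval_det V m q E
  rw [eval_D] at hE
  have hdisc : (d - a) ^ 2 + 4 * b * c ≤ 0 := by nlinarith
  set n : ℕ → ℝ := fun j => (P V (m + j) q 0 1).eval E with hn
  have hform : ∀ j, n j = b * ((P V m j 0 0).eval E) ^ 2 +
      (d - a) * ((P V m j 0 0).eval E) * ((P V m j 0 1).eval E) -
      c * ((P V m j 0 1).eval E) ^ 2 := by
    intro j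
    have := congrArg (eval E) (entry_formula hV m j)
    simp only [eval_sub, eval_mul, eval_add] at this
    simp only [hn]
    rw [this]
    ring
  have hsum : ∑ j ∈ Finset.range q, n j = 0 := by
    have := congrArg (eval E) (D_deriv hV m)
    rw [h0, eval_neg, eval_finsetSum] at this
    simp only [hn]
    linarith
  have hn0 : n 0 = b := by
    rw [hform]
    simp [P_zero]
  have hn1 : n 1 = b * (E - V m) ^ 2 - (d - a) * (E - V m) - c := by
    rw [hform, P_one]
    simp [T]
    ring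
  have h0q : 0 ∈ Finset.range q := Finset.mem_range.2 (by omega)
  have h1q : 1 ∈ Finset.range q := Finset.mem_range.2 (by omega)
  have hb0 : b = 0 := by
    by_contra hb0
    rcases lt_or_gt_of_ne hb0 with hneg | hpos
    · have hle : ∀ j ∈ Finset.range q, n j ≤ 0 := by
        intro j _
        have h4 : 0 ≤ 4 * b * n j := by
          rw [hform]
          nlinarith [sq_nonneg (2 * b * (P V m j 0 0).eval E + (d - a) * (P V m j 0 1).eval E),
            mul_nonneg (neg_nonneg.2 hdisc) (sq_nonneg ((P V m j 0 1).eval E))]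
        nlinarith
      have := (Finset.sum_eq_zero_iff_of_nonpos hle).1 hsum 0 h0q
      rw [hn0] at this
      exact hb0 this
    · have hle : ∀ j ∈ Finset.range q, 0 ≤ n j := by
        intro j _
        have h4 : 0 ≤ 4 * b * n j := by
          rw [hform]
          nlinarith [sq_nonneg (2 * b * (P V m j 0 0).eval E + (d - a) * (P V m j 0 1).eval E),
            mul_nonneg (neg_nonneg.2 hdisc) (sq_nonneg ((P V m j 0 1).eval E))]
        nlinarith
      have := (Finset.sum_eq_zero_iff_of_nonneg hle).1 hsum 0 h0q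
      rw [hn0] at this
      exact hb0 this
  rw [hb0] at hdisc hn1 hform
  have hda : d = a := by nlinarith [sq_nonneg (d - a)]
  rw [hda] at hn1 hform
  have hc0 : c = 0 := by
    by_contra hc0
    rcases lt_or_gt_of_ne hc0 with hneg | hpos
    · have hle : ∀ j ∈ Finset.range q, 0 ≤ n j := by
        intro j _
        rw [hform]
        nlinarith [mul_nonneg (neg_nonneg.2 hneg.le) (sq_nonneg ((P V m j 0 1).eval E))]
      have := (Finset.sum_eq_zero_iff_of_nonneg hle).1 hsum 1 h1q
      rw [hn1] at this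
      apply hc0
      linarith
    · have hle : ∀ j ∈ Finset.range q, n j ≤ 0 := by
        intro j _
        rw [hform]
        nlinarith [mul_nonneg hpos.le (sq_nonneg ((P V m j 0 1).eval E))]
      have := (Finset.sum_eq_zero_iff_of_nonpos hle).1 hsum 1 h1q
      rw [hn1] at this
      apply hc0
      linarith
  exact ⟨hb0, hc0, hda.symm⟩

/-! ### monodromy matrices of words with a swapped cyclic shift are not scalar -/

/-- evaluation of transfer matrices -/
noncomputable def PE (V : ℤ → ℝ) (E : ℝ) (m : ℤ) (k : ℕ) : Matrix (Fin 2) (Fin 2) ℝ :=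
  (P V m k).map (eval E)

lemma map_mul_eval (A B : Matrix (Fin 2) (Fin 2) ℝ[X]) (E : ℝ) :
    (A * B).map (eval E) = A.map (eval E) * B.map (eval E) := by
  ext1 i j
  simp only [Matrix.map_apply, Matrix.mul_apply, Fin.sum_univ_two, eval_add, eval_mul]

lemma det_PE (V : ℤ → ℝ) (E : ℝ) (m : ℤ) (k : ℕ) : (PE V E m k).det = 1 := by
  rw [Matrix.det_fin_two]
  exact eval_det V m k E

lemma left_inv_unique {A B U : Matrix (Fin 2) (Fin 2) ℝ} (h1 : A * U = 1) (h2 : B * U = 1) :
    A = B := by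
  have h3 : U * A = 1 := mul_eq_one_comm.1 h1
  calc A = (B * U) * A := by rw [h2, Matrix.one_mul]
    _ = B * (U * A) := Matrix.mul_assoc _ _ _
    _ = B := by rw [h3, Matrix.mul_one]

theorem not_scalar {V : ℤ → ℝ} {q : ℕ} (hq : 2 ≤ q) (hV : ∀ n, V (n + q) = V n) (c : ℕ)
    (h1 : V c = V ((q : ℤ) - 1)) (h2 : V (c + (q - 1)) = V 0)
    (h3 : ∀ n : ℤ, 0 < n → n < (q : ℤ) - 1 → V (c + n) = V n) (h4 : V 0 ≠ V ((q : ℤ) - 1)) (E : ℝ) :
    ¬ ((P V 0 q 0 1).eval E = 0 ∧ (P V 0 q 1 0).eval E = 0 ∧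
      (P V 0 q 0 0).eval E = (P V 0 q 1 1).eval E) := by
  rintro ⟨e1, e2, e3⟩
  set a := (P V 0 q 0 0).eval E with ha
  have hdet := eval_det V 0 q E
  rw [← ha, ← e3, e1] at hdet
  have haa : a * a = 1 := by linarith
  have hM : PE V E 0 q = a • (1 : Matrix (Fin 2) (Fin 2) ℝ) := by
    ext i j
    fin_cases i <;> fin_cases j
    · simp [PE, ha]
    · simp [PE, e1]
    · simp [PE, e2]
    · simp [PE, ← e3]
  -- the shifted monodromy matrix
  have hN : PE V E c q = a • (1 : Matrix (Fin 2) (Fin 2) ℝ) := by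
    have ht := congrArg (fun A : Matrix (Fin 2) (Fin 2) ℝ[X] => A.map (eval E)) (twine hV 0 c)
    simp only [map_mul_eval, zero_add] at ht
    have ht' : PE V E c q * PE V E 0 c = PE V E 0 c * PE V E 0 q := ht
    rw [hM] at ht'
    have hu : IsUnit (PE V E 0 c).det := by rw [det_PE]; exact isUnit_one
    have hc : PE V E c q * PE V E 0 c = (a • (1 : Matrix (Fin 2) (Fin 2) ℝ)) * PE V E 0 c := by
      rw [ht', Matrix.mul_smul, Matrix.smul_mul, Matrix.mul_one, Matrix.one_mul]
    have := congrArg (fun A => A * (PE V E 0 c)⁻¹) hc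
    simp only [Matrix.mul_assoc, Matrix.mul_nonsing_inv _ hu, Matrix.mul_one] at this
    exact this
  obtain ⟨r, hr⟩ : ∃ r, q = r + 1 + 1 := ⟨q - 2, by omega⟩
  -- decompositions
  set A : Matrix (Fin 2) (Fin 2) ℝ := (T (V 0)).map (eval E) with hA
  set B : Matrix (Fin 2) (Fin 2) ℝ := (T (V ((q : ℤ) - 1))).map (eval E) with hB
  set U : Matrix (Fin 2) (Fin 2) ℝ := PE V E 1 r with hU
  have hdec : ∀ m : ℤ, PE V E m q =
      (T (V (m + (q - 1)))).map (eval E) * (PE V E (m + 1) r * (T (V m)).map (eval E)) := by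
    intro m
    unfold PE
    rw [← map_mul_eval, ← map_mul_eval]
    congr 1
    conv_lhs => rw [hr]
    rw [P_succ, P_succ']
    congr 3
    rw [hr]
    push_cast
    ring
  have hM2 : B * (U * A) = a • (1 : Matrix (Fin 2) (Fin 2) ℝ) := by
    rw [← hM, hdec 0]
    simp [hB, hU, hA]
  have hN2 : A * (U * B) = a • (1 : Matrix (Fin 2) (Fin 2) ℝ) := by
    rw [← hN, hdec c, h2, h1]
    have hUc : PE V E (c + 1) r = U := by
      rw [hU]
      unfold PE
      congr 1
      apply P_congr
      intro j hj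
      have := h3 (1 + j) (by omega) (by rw [hr]; push_cast; omega)
      rw [← this]
      congr 1
      ring
    rw [hUc]
  have k1 : (A * (a • B)) * U = 1 := by
    have s1 : (a • B) * (U * A) = 1 := by
      rw [Matrix.smul_mul, hM2, smul_smul, haa, one_smul]
    have s2 : (U * A) * (a • B) = 1 := mul_eq_one_comm.1 s1
    rw [Matrix.mul_assoc] at s2
    exact mul_eq_one_comm.1 s2
  have k2 : (B * (a • A)) * U = 1 := by
    have s1 : (a • A) * (U * B) = 1 := by
      rw [Matrix.smul_mul, hN2, smul_smul, haa, one_smul]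
    have s2 : (U * B) * (a • A) = 1 := mul_eq_one_comm.1 s1
    rw [Matrix.mul_assoc] at s2
    exact mul_eq_one_comm.1 s2
  have k3 := left_inv_unique k1 k2
  rw [Matrix.mul_smul, Matrix.mul_smul] at k3
  have k4 : A * B = B * A := by
    have := congrArg (fun M => a • M) k3
    simp only [smul_smul, haa, one_smul] at this
    exact this
  have k5 := congrFun (congrFun k4 0) 1
  rw [Matrix.mul_apply, Matrix.mul_apply, Fin.sum_univ_two, Fin.sum_univ_two] at k5
  simp [hA, hB, T] at k5
  exact h4 k5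

end Pool.Agent.H695R3.ST
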