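import Mathlib
import Pool.Agent.H695R3.ST.Crit

set_option autoImplicit false

open Polynomial Matrix

namespace Pool.Agent.H695R3.ST

/-- evaluation of transfer matrices at complex energies -/
noncomputable def PC (V : ℤ → ℝ) (z : ℂ) (m : ℤ) (k : ℕ) : Matrix (Fin 2) (Fin 2) ℂ :=
  (P V m k).map (aeval z)

lemma map_mul_aeval (A B : Matrix (Fin 2) (Fin 2) ℝ[X]) (z : ℂ) :
    (A * B).map (aeval z : ℝ[X] → ℂ) = A.map (aeval z) * B.map (aeval z) := by
  ext1 i j
  simp only [Matrix.map_apply, Matrix.mul_apply, Fin.sum_univ_two, map_add, map_mul]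

lemma PC_det (V : ℤ → ℝ) (z : ℂ) (m : ℤ) (k : ℕ) : (PC V z m k).det = 1 := by
  have hd := det_P V m k
  rw [Matrix.det_fin_two] at hd ⊢
  have := congrArg (aeval z : ℝ[X] → ℂ) hd
  simpa [PC] using this

lemma PC_trace (V : ℤ → ℝ) (z : ℂ) (m : ℤ) (k : ℕ) :
    PC V z m k 0 0 + PC V z m k 1 1 = aeval z (D V m k) := by
  unfold D PC
  rw [Matrix.trace_fin_two, map_add]
  rfl

lemma exists_bloch (V : ℤ → ℝ) (m : ℤ) (q : ℕ) (z ζ : ℂ)
    (hζ : ζ ^ 2 - aeval z (D V m q) * ζ + 1 = 0) :
    ∃ u : ℕ → ℂ, (u 0 ≠ 0 ∨ u 1 ≠ 0) ∧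
      (∀ k : ℕ, u (k + 2) = (z - V (m + k)) * u (k + 1) - u k) ∧
      u q = ζ * u 0 ∧ u (q + 1) = ζ * u 1 := by
  have hdet : (PC V z m q - ζ • (1 : Matrix (Fin 2) (Fin 2) ℂ)).det = 0 := by
    have h1 := PC_det V z m q
    have h2 := PC_trace V z m q
    rw [Matrix.det_fin_two] at h1 ⊢
    simp only [Matrix.sub_apply, Matrix.smul_apply, Matrix.one_apply_eq, smul_eq_mul, mul_one]
    rw [Matrix.one_apply_ne (by decide), Matrix.one_apply_ne (by decide)]
    rw [← h2] at hζ
    linear_combination h1 + hζ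
  obtain ⟨w, hw0, hw⟩ := Matrix.exists_mulVec_eq_zero_iff.2 hdet
  have hwe : PC V z m q *ᵥ w = ζ • w := by
    rw [Matrix.sub_mulVec, Matrix.smul_mulVec, Matrix.one_mulVec, sub_eq_zero] at hw
    exact hw
  set S : ℕ → Fin 2 → ℂ := fun k => PC V z m k *ᵥ w with hS
  have hstep : ∀ k, S (k + 1) 0 = (z - V (m + k)) * S k 0 - S k 1 ∧ S (k + 1) 1 = S k 0 := by
    intro k
    have h1 : S (k + 1) = (T (V (m + k))).map (aeval z : ℝ[X] → ℂ) *ᵥ S k := by
      simp only [hS, PC]
      rw [P_succ, map_mul_aeval, Matrix.mulVec_mulVec]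
    rw [h1]
    constructor
    · simp [T, Matrix.mulVec, dotProduct, Fin.sum_univ_two]
      ring
    · simp [T, Matrix.mulVec, dotProduct, Fin.sum_univ_two]
  have hS0 : S 0 = w := by
    simp only [hS, PC, P_zero]
    have : (1 : Matrix (Fin 2) (Fin 2) ℝ[X]).map (aeval z : ℝ[X] → ℂ) = 1 := by
      ext i j
      fin_cases i <;> fin_cases j <;> simp
    rw [this, Matrix.one_mulVec]
  have hSq : S q = ζ • w := hwe
  refine ⟨fun k => S k 1, ?_, ?_, ?_, ?_⟩
  · by_contra hc
    simp only [not_or, not_not] at hc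
    obtain ⟨c1, c2⟩ := hc
    rw [(hstep 0).2] at c2
    rw [hS0] at c1 c2
    apply hw0
    ext i
    fin_cases i
    · exact c2
    · exact c1
  · intro k
    simp only
    rw [(hstep (k + 1)).2, (hstep k).1, (hstep k).2]
  · simp only
    rw [hSq, hS0]
    simp
  · simp only
    rw [(hstep q).2, (hstep 0).2, hSq, hS0]
    simp

/-- zeros of the discriminant are real -/
lemma real_zero {V : ℤ → ℝ} {q : ℕ} (hq : 1 ≤ q) (m : ℤ) {z : ℂ}
    (hz : aeval z (D V m q) = 0) : z.im = 0 := by
  obtain ⟨u, hu0, hu, huq, huq1⟩ := exists_bloch V m q z Complex.I (by rw [hz]; simp)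
  by_contra him
  set J : ℕ → ℝ := fun k => (star (u k) * u (k + 1)).im with hJ
  have hstep : ∀ k, J (k + 1) = J k + z.im * Complex.normSq (u (k + 1)) := by
    intro k
    simp only [hJ]
    rw [show k + 1 + 1 = k + 2 from rfl, hu k]
    simp only [Complex.star_def, Complex.mul_im, Complex.mul_re, Complex.conj_re, Complex.conj_im,
      Complex.sub_re, Complex.sub_im, Complex.ofReal_re, Complex.ofReal_im, Complex.normSq_apply]
    ring
  have hsum : ∀ k, J k = J 0 + z.im * ∑ j ∈ Finset.range k, Complex.normSq (u (j + 1)) := by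
    intro k
    induction k with
    | zero => simp
    | succ k ih => rw [hstep, ih, Finset.sum_range_succ]; ring
  have hJq : J q = J 0 := by
    simp only [hJ]
    rw [huq, huq1]
    simp only [Complex.star_def, Complex.mul_im, Complex.mul_re, Complex.conj_re, Complex.conj_im,
      Complex.I_re, Complex.I_im]
    ring
  have h1 := hsum q
  rw [hJq] at h1
  have h2 : ∑ j ∈ Finset.range q, Complex.normSq (u (j + 1)) = 0 := by
    have : z.im * ∑ j ∈ Finset.range q, Complex.normSq (u (j + 1)) = 0 := by linarith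
    exact (mul_eq_zero.1 this).resolve_left him
  have h3 := (Finset.sum_eq_zero_iff_of_nonneg fun j _ => Complex.normSq_nonneg _).1 h2
  have h4 : u 1 = 0 := Complex.normSq_eq_zero.1 (h3 0 (Finset.mem_range.2 hq))
  have h5 : u q = 0 := by
    obtain ⟨r, rfl⟩ : ∃ r, q = r + 1 := ⟨q - 1, by omega⟩
    exact Complex.normSq_eq_zero.1 (h3 r (Finset.mem_range.2 (Nat.lt_succ_self r)))
  have h6 : u 0 = 0 := by
    rw [huq] at h5
    exact (mul_eq_zero.1 h5).resolve_left Complex.I_ne_zero
  rcases hu0 with h | h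
  · exact h h6
  · exact h h4

/-- If `D' ≠ 0` wherever `|D| ≤ 2`, there are `q` distinct real zeros. -/
theorem card_zeros {V : ℤ → ℝ} {q : ℕ} (hq : 1 ≤ q) (m : ℤ)
    (hc : ∀ E : ℝ, ((D V m q).eval E) ^ 2 ≤ 4 → (derivative (D V m q)).eval E ≠ 0) :
    (D V m q).roots.toFinset.card = q := by
  set p := D V m q with hp
  obtain ⟨hmon, hdeg⟩ := D_monic V m hq
  have hp0 : p ≠ 0 := hmon.ne_zero
  apply le_antisymm
  · calc p.roots.toFinset.card ≤ p.roots.card := Multiset.toFinset_card_le _
      _ ≤ p.natDegree := card_roots' p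
      _ = q := hdeg
  · set pc : ℂ[X] := p.map (algebraMap ℝ ℂ) with hpc
    have hpc0 : pc ≠ 0 := (hmon.map _).ne_zero
    have hcard : pc.roots.card = q := by
      rw [← hdeg, ← natDegree_map_eq_of_injective (algebraMap ℝ ℂ).injective p]
      exact (splits_iff_card_roots.1 (IsAlgClosed.splits pc))
    have hreal : ∀ z ∈ pc.roots, z.im = 0 ∧ z.re ∈ p.roots.toFinset := by
      intro z hz
      have h1 : aeval z p = 0 := by
        have := (mem_roots hpc0).1 hz
        rwa [IsRoot.def, hpc, eval_map_algebraMap] at this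
      have h2 := real_zero hq m h1
      refine ⟨h2, ?_⟩
      rw [Multiset.mem_toFinset, mem_roots hp0, IsRoot.def]
      have h3 : z = algebraMap ℝ ℂ z.re := by
        apply Complex.ext
        · simp
        · simp [h2]
      rw [h3, aeval_algebraMap_apply] at h1
      have h4 : ((aeval z.re p : ℝ) : ℂ) = 0 := h1
      have h5 : (aeval z.re p : ℝ) = 0 := by exact_mod_cast h4
      rwa [coe_aeval_eq_eval] at h5
    have hnodup : pc.roots.Nodup := by
      rw [Multiset.nodup_iff_count_le_one]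
      intro z
      by_contra hcon
      rw [not_le] at hcon
      rw [count_roots] at hcon
      have h1 := (one_lt_rootMultiplicity_iff_isRoot hpc0).1 hcon
      have hz : z ∈ pc.roots := (mem_roots hpc0).2 h1.1
      obtain ⟨h2, h3⟩ := hreal z hz
      have h4 : z = algebraMap ℝ ℂ z.re := by
        apply Complex.ext
        · simp
        · simp [h2]
      have h5 : (derivative p).eval z.re = 0 := by
        have h6 := h1.2
        rw [IsRoot.def, hpc, derivative_map, eval_map_algebraMap, h4, aeval_algebraMap_apply] at h6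
        have h7 : ((aeval z.re (derivative p) : ℝ) : ℂ) = 0 := h6
        have h8 : (aeval z.re (derivative p) : ℝ) = 0 := by exact_mod_cast h7
        rwa [coe_aeval_eq_eval] at h8
      rw [Multiset.mem_toFinset, mem_roots hp0, IsRoot.def] at h3
      exact hc z.re (by rw [h3]; norm_num) h5
    have h1 : pc.roots.toFinset.card = q := by
      rw [Multiset.toFinset_card_of_nodup hnodup, hcard]
    rw [← h1]
    apply Finset.card_le_card_of_injOn (fun z : ℂ => z.re)
    · intro z hz
      exact (hreal z (Multiset.mem_toFinset.1 hz)).2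
    · intro z hz w hw hzw
      have e1 := (hreal z (Multiset.mem_toFinset.1 hz)).1
      have e2 := (hreal w (Multiset.mem_toFinset.1 hw)).1
      exact Complex.ext hzw (by rw [e1, e2])

/-- The zeros in increasing order; between two of them `|D| > 2` somewhere. -/
theorem zeros_gaps {V : ℤ → ℝ} {q : ℕ} (hq : 1 ≤ q) (m : ℤ)
    (hc : ∀ E : ℝ, ((D V m q).eval E) ^ 2 ≤ 4 → (derivative (D V m q)).eval E ≠ 0) :
    ∃ z : Fin q → ℝ, StrictMono z ∧ (∀ i, (D V m q).eval (z i) = 0) ∧
      ∀ i j, i < j → ∃ ξ, z i < ξ ∧ ξ < z j ∧ 4 < ((D V m q).eval ξ) ^ 2 := by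
  have hcard := card_zeros hq m hc
  have hp0 : D V m q ≠ 0 := (D_monic V m hq).1.ne_zero
  set z := (D V m q).roots.toFinset.orderEmbOfFin hcard with hz
  have hzero : ∀ i, (D V m q).eval (z i) = 0 := by
    intro i
    have h1 := Finset.orderEmbOfFin_mem (D V m q).roots.toFinset hcard i
    rw [Multiset.mem_toFinset, mem_roots hp0, IsRoot.def] at h1
    exact h1
  refine ⟨z, z.strictMono, hzero, fun i j hij => ?_⟩
  have hlt : z i < z j := z.strictMono hij
  obtain ⟨ξ, hξ, hd⟩ := exists_hasDerivAt_eq_zero (f := fun x => (D V m q).eval x)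
    (f' := fun x => (derivative (D V m q)).eval x) hlt
    (D V m q).continuous.continuousOn (by rw [hzero, hzero])
    (fun x _ => (D V m q).hasDerivAt x)
  refine ⟨ξ, hξ.1, hξ.2, ?_⟩
  by_contra hcon
  rw [not_lt] at hcon
  exact hc ξ hcon hd

end Pool.Agent.H695R3.ST
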