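import Mathlib
import Pool.Agent.H695R3.AT.Spec

set_option autoImplicit false

open Filter Topology Pool.Agent.H695R3.AT

namespace Pool.Agent.H695R3.ST

variable {X : Type} [NormedAddCommGroup X] [InnerProductSpace ℂ X] [CompleteSpace X]

lemma cfc_norm_mono {H : X →L[ℂ] X} (hH : IsSelfAdjoint H) (ψ : X) {f g : ℝ → ℝ}
    (hf : Continuous f) (hg : Continuous g) (a : ℝ)
    (h : ∀ x ∈ spectrum ℝ H, a * (f x * f x) ≤ g x * g x) :
    a * ‖(cfc f H) ψ‖ ^ 2 ≤ ‖(cfc g H) ψ‖ ^ 2 := by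
  rw [norm_sq_cfc' hH ψ hf, norm_sq_cfc' hH ψ hg]
  have h4 : cfc (fun x => a * (f x * f x)) H ≤ cfc (fun x => g x * g x) H :=
    cfc_mono h (by fun_prop) (by fun_prop)
  rw [ContinuousLinearMap.le_def] at h4
  have h5 := h4.re_inner_nonneg_right ψ
  rw [cfc_const_mul a (fun x => f x * f x) H (by fun_prop), sub_apply, inner_sub_right, map_sub,
    smul_apply] at h5
  have h6 : ∀ z : ℂ, RCLike.re z = z.re := fun z => rfl
  rw [h6, h6] at h5
  have h7 : a • (cfc (fun x => f x * f x) H) ψ = ((a : ℝ) : ℂ) • (cfc (fun x => f x * f x) H) ψ :=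
    RCLike.real_smul_eq_coe_smul (K := ℂ) a _
  rw [h7, inner_smul_right, Complex.re_ofReal_mul] at h5
  linarith

lemma cfc_sub_const_apply {H : X →L[ℂ] X} (hH : IsSelfAdjoint H) (ψ : X) (E : ℝ) :
    (cfc (fun x => x - E) H) ψ = H ψ - (E : ℂ) • ψ := by
  rw [cfc_sub (fun t : ℝ => t) (fun _ => E) H (by fun_prop) (by fun_prop), cfc_id' ℝ H,
      cfc_const E H, Algebra.algebraMap_eq_smul_one, sub_apply, smul_apply, one_apply_eq_self]
  rw [show ((E : ℂ) • ψ) = E • ψ from (RCLike.real_smul_eq_coe_smul (K := ℂ) E ψ).symm]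

lemma cut_self (x : ℝ) (r : ℝ) : cut x r x = 1 := by
  unfold cut
  rw [sub_self, abs_zero, zero_div, sub_zero, min_eq_left (by norm_num), max_eq_right zero_le_one]

/-- a nonzero vector in the spectral window around a spectral point -/
lemma exists_window {H : X →L[ℂ] X} (hH : IsSelfAdjoint H) {E : ℝ} (hE : E ∈ spectrum ℝ H)
    (r : ℝ) : ∃ χ : X, (cfc (cut E r) H) χ ≠ 0 := by
  by_contra hc
  have h0 : cfc (cut E r) H = 0 := by
    ext χ
    by_contra h
    exact hc ⟨χ, h⟩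
  have h1 := norm_apply_le_norm_cfc (cut E r) H hE (cut_cont E r).continuousOn hH
  rw [h0, norm_zero, cut_self] at h1
  norm_num at h1

theorem weyl_fwd {H : X →L[ℂ] X} (hH : IsSelfAdjoint H) {E : ℝ} (hE : E ∈ spectrum ℝ H)
    {η : ℝ} (hη : 0 < η) : ∃ ψ : X, ψ ≠ 0 ∧ ‖H ψ - (E : ℂ) • ψ‖ ≤ η * ‖ψ‖ := by
  obtain ⟨χ, hχ⟩ := exists_window hH hE (η / 2)
  refine ⟨_, hχ, ?_⟩
  have hc := cut_cont E (η / 2)
  have h1 : H ((cfc (cut E (η / 2)) H) χ) - (E : ℂ) • (cfc (cut E (η / 2)) H) χ =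
      (cfc (fun x => (x - E) * cut E (η / 2) x) H) χ := by
    rw [← cfc_sub_const_apply hH, cfc_mul (fun x => x - E) (cut E (η / 2)) H (by fun_prop)
      hc.continuousOn, mul_apply_eq_comp]
  rw [h1]
  have h2 := cfc_norm_mono hH χ (f := fun x => (x - E) * cut E (η / 2) x) (g := fun x => η * cut E (η / 2) x)
    (by fun_prop) (by fun_prop) 1 (fun x _ => by
      by_cases hx : 2 * (η / 2) ≤ |x - E|
      · rw [cut_eq_zero (by positivity) hx]; simp
      · rw [not_le] at hx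
        have e1 : (x - E) * (x - E) ≤ η * η := by
          rw [← abs_mul_abs_self (x - E)]
          apply mul_self_le_mul_self (abs_nonneg _)
          linarith
        have e2 := mul_le_mul_of_nonneg_right e1 (mul_self_nonneg (cut E (η / 2) x))
        nlinarith)
  rw [one_mul, cfc_const_mul η (cut E (η / 2)) H hc.continuousOn, smul_apply, norm_smul,
    Real.norm_eq_abs, abs_of_pos hη] at h2
  exact le_of_sq_le_sq h2 (by positivity)

theorem weyl_bwd {H : X →L[ℂ] X} (hH : IsSelfAdjoint H) {E η : ℝ} {ψ : X} (hψ : ψ ≠ 0)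
    (h : ‖H ψ - (E : ℂ) • ψ‖ ≤ η * ‖ψ‖) : ∃ E' ∈ spectrum ℝ H, |E - E'| ≤ η := by
  by_contra hc
  simp only [not_exists, not_and, not_le] at hc
  have hd : ∃ d : ℝ, η < d ∧ ∀ x ∈ spectrum ℝ H, d ≤ |E - x| := by
    rcases (spectrum ℝ H).eq_empty_or_nonempty with he | hne
    · exact ⟨η + 1, by linarith, fun x hx => by rw [he] at hx; exact absurd hx (Set.notMem_empty x)⟩
    · obtain ⟨x, hx, hmin⟩ := (spectrum.isCompact H).exists_isMinOn hne
        (f := fun x => |E - x|) (by fun_prop)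
      exact ⟨|E - x|, hc x hx, fun y hy => hmin hy⟩
  obtain ⟨d, hd1, hd2⟩ := hd
  have hη : 0 ≤ η := by
    have h1 : 0 ≤ η * ‖ψ‖ := (norm_nonneg _).trans h
    exact nonneg_of_mul_nonneg_left h1 (norm_pos_iff.2 hψ)
  have h2 := cfc_norm_mono hH ψ (f := fun _ => (1 : ℝ)) (g := fun x => x - E) (by fun_prop)
    (by fun_prop) (d ^ 2) (fun x hx => by
      have h3 := hd2 x hx
      have h4 : d ^ 2 ≤ |E - x| ^ 2 := pow_le_pow_left₀ (hη.trans hd1.le) h3 2
      rw [sq_abs] at h4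
      nlinarith)
  rw [cfc_sub_const_apply hH, cfc_const_one ℝ H, one_apply_eq_self] at h2
  have h3 : ‖H ψ - (E : ℂ) • ψ‖ ^ 2 ≤ (η * ‖ψ‖) ^ 2 := pow_le_pow_left₀ (norm_nonneg _) h 2
  have h4 : 0 < ‖ψ‖ := norm_pos_iff.2 hψ
  have h5 : (η * ‖ψ‖) ^ 2 < d ^ 2 * ‖ψ‖ ^ 2 := by
    rw [mul_pow]
    exact mul_lt_mul_of_pos_right (pow_lt_pow_left₀ hd1 hη two_ne_zero) (by positivity)
  linarith

end Pool.Agent.H695R3.ST
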