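import Mathlib
import Pool.Agent.Helper434.PSCplx
import Pool.Agent.H695R3.ST.Crit

set_option autoImplicit false

open Polynomial Pool.Agent.Helper434.PSCplx

namespace Pool.Agent.H695R3.ST

/-- `H = Δ + V` -/
def IsSchr (V : ℤ → ℝ) (H : L2 →L[ℂ] L2) : Prop :=
  ∀ (ψ : L2) (n : ℤ), H ψ n = ψ (n + 1) + ψ (n - 1) + (V n : ℂ) * ψ n

theorem exists_schr {V : ℤ → ℝ} {C : ℝ} (hV : ∀ n, |V n| ≤ C) :
    ∃ H : L2 →L[ℂ] L2, IsSchr V H ∧ IsSelfAdjoint H :=
  exists_H V hV

theorem schr_sa {V : ℤ → ℝ} {C : ℝ} (hV : ∀ n, |V n| ≤ C) {H : L2 →L[ℂ] L2} (hH : IsSchr V H) :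
    IsSelfAdjoint H := by
  obtain ⟨H', h1, h2⟩ := exists_H V hV
  have : H = H' := by
    ext ψ n
    rw [hH, h1]
  rw [this]; exact h2

/-- unit vectors -/
noncomputable def dl (m : ℤ) : L2 := lp.single 2 m (1 : ℂ)

lemma dl_apply (m n : ℤ) : dl m n = if n = m then 1 else 0 := by
  unfold dl
  rw [lp.single_apply, Pi.single_apply]

lemma H_dl {V : ℤ → ℝ} {H : L2 →L[ℂ] L2} (hH : IsSchr V H) (m : ℤ) :
    H (dl m) = dl (m + 1) + dl (m - 1) + (V m) • dl m := by
  refine lp.ext (funext fun n => ?_)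
  rw [hH, lp.coeFn_add, lp.coeFn_add, lp.coeFn_smul, Pi.add_apply, Pi.add_apply, Pi.smul_apply]
  simp only [dl_apply]
  have e1 : (n + 1 = m) ↔ (n = m - 1) := by omega
  have e2 : (n - 1 = m) ↔ (n = m + 1) := by omega
  simp only [e1, e2]
  by_cases h : n = m
  · subst h
    rw [if_neg (by omega), if_neg (by omega), if_pos rfl]
    simp
  · rw [if_neg h]
    simp only [mul_zero, smul_zero, add_zero]
    ring

section
variable {V : ℤ → ℝ} {H : L2 →L[ℂ] L2}

lemma aeval_C_apply (v : ℝ) (ψ : L2) : (aeval H (C v)) ψ = v • ψ := by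
  rw [aeval_C, Algebra.algebraMap_eq_smul_one, smul_apply, one_apply_eq_self]

lemma aeval_sub_C (v : ℝ) (p : ℝ[X]) (ψ : L2) :
    (aeval H ((X - C v) * p)) ψ = H ((aeval H p) ψ) - v • (aeval H p) ψ := by
  rw [map_mul, map_sub, aeval_X, mul_apply_eq_comp, sub_apply, aeval_C_apply]

lemma dl_step (hH : IsSchr V H) (m : ℤ) (k : ℕ) :
    dl (m + k) = (aeval H (P V m k 0 0)) (dl m) + (aeval H (P V m k 0 1)) (dl (m - 1)) ∧
    dl (m + k - 1) = (aeval H (P V m k 1 0)) (dl m) + (aeval H (P V m k 1 1)) (dl (m - 1)) := by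
  induction k with
  | zero =>
    simp only [P_zero, Nat.cast_zero, add_zero]
    constructor <;> simp
  | succ k ih =>
    obtain ⟨e1, e2, e3, e4⟩ := P_entry V m k
    have h1 := H_dl hH (m + k)
    constructor
    · rw [e1, e2, map_sub, map_sub, sub_apply, sub_apply, aeval_sub_C, aeval_sub_C]
      have h2 : dl (m + ((k + 1 : ℕ) : ℤ)) = H (dl (m + k)) - dl (m + k - 1) -
          (V (m + k)) • dl (m + k) := by
        rw [h1]
        have : m + ((k + 1 : ℕ) : ℤ) = m + k + 1 := by push_cast; ring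
        rw [this]
        abel
      rw [h2, ih.2]
      conv_lhs => rw [ih.1]
      rw [map_add, smul_add]
      abel
    · rw [e3, e4]
      have : m + ((k + 1 : ℕ) : ℤ) - 1 = m + k := by push_cast; ring
      rw [this]
      exact ih.1

/-- **The magic formula** at a site around which the potential is periodic. -/
theorem magic (hH : IsSchr V H) (m : ℤ) (q : ℕ)
    (hV : ∀ j : ℕ, j < q → V (m - q + j) = V (m + j)) :
    (aeval H (D V m q)) (dl m) = dl (m + q) + dl (m - q) := by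
  have hP : P V (m - q) q = P V m q := P_congr hV
  have h1 := dl_step hH m q
  have h2 := dl_step hH (m - q) q
  rw [hP, sub_add_cancel] at h2
  obtain ⟨h2a, h2b⟩ := h2
  have hd := det_P V m q
  rw [Matrix.det_fin_two] at hd
  have h3 : (aeval H (P V m q 1 1)) (dl m) - (aeval H (P V m q 0 1)) (dl (m - 1)) =
      dl (m - q) := by
    have e1 : (aeval H (P V m q 1 1)) (dl m) = (aeval H (P V m q 1 1 * P V m q 0 0)) (dl (m - q)) +
        (aeval H (P V m q 1 1 * P V m q 0 1)) (dl (m - q - 1)) := by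
      conv_lhs => rw [h2a]
      rw [map_add, map_mul, map_mul, mul_apply_eq_comp, mul_apply_eq_comp]
    have e2 : (aeval H (P V m q 0 1)) (dl (m - 1)) =
        (aeval H (P V m q 0 1 * P V m q 1 0)) (dl (m - q)) +
        (aeval H (P V m q 0 1 * P V m q 1 1)) (dl (m - q - 1)) := by
      conv_lhs => rw [h2b]
      rw [map_add, map_mul, map_mul, mul_apply_eq_comp, mul_apply_eq_comp]
    rw [e1, e2, mul_comm (P V m q 0 1) (P V m q 1 1), add_sub_add_right_eq_sub, ← sub_apply,
      ← map_sub]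
    have e3 : P V m q 1 1 * P V m q 0 0 - P V m q 0 1 * P V m q 1 0 = 1 := by
      rw [← hd]; ring
    rw [e3, map_one, one_apply_eq_self]
  have h4 : D V m q = P V m q 0 0 + P V m q 1 1 := by
    unfold D; rw [Matrix.trace_fin_two]
  rw [h4, map_add, add_apply, h1.1, ← h3]
  abel

end

end Pool.Agent.H695R3.ST
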