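import Mathlib
import Pool.Agent.H695R3.ST.Cfc
import Pool.Agent.H695R3.ST.Op

set_option autoImplicit false

open Filter Topology Polynomial Pool.Agent.H695R3.AT Pool.Agent.Helper434.PSCplx

namespace Pool.Agent.H695R3.ST

lemma norm_SS_le (a : ℤ) (ψ : L2) : ‖SS a ψ‖ ≤ ‖ψ‖ := by
  have := (SS a).le_of_opNorm_le (LinearMap.mkContinuous_norm_le _ zero_le_one _) ψ
  rwa [one_mul] at this

lemma SS_dl (a m : ℤ) : SS a (dl m) = dl (m - a) := by
  refine lp.ext (funext fun n => ?_)
  rw [SS_apply, dl_apply, dl_apply]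
  have : (n + a = m) ↔ (n = m - a) := by omega
  simp only [this]

/-- If `p(H) δ_m = δ_{m+q} + δ_{m-q}` off a finite set `Z`, then `p(H) ψ = S^q ψ + S^{-q} ψ` for the
vectors vanishing on `Z`. -/
lemma magic_vec {H : L2 →L[ℂ] L2} {p : ℝ[X]} {q : ℤ} {Z : Finset ℤ}
    (hmag : ∀ m, m ∉ Z → (aeval H p) (dl m) = dl (m + q) + dl (m - q)) {ψ : L2}
    (hψ : ∀ m ∈ Z, ψ m = 0) : (aeval H p) ψ = SS (-q) ψ + SS q ψ := by
  set G : L2 →L[ℂ] L2 := aeval H p - (SS (-q) + SS q) with hG
  have hG0 : ∀ m, m ∉ Z → G (dl m) = 0 := by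
    intro m hm
    rw [hG, sub_apply, add_apply, hmag m hm, SS_dl, SS_dl, sub_neg_eq_add, sub_self]
  have h1 : HasSum (fun m : ℤ => (lp.single 2 m (ψ m) : L2)) ψ :=
    lp.hasSum_single ENNReal.ofNat_ne_top ψ
  have h2 := h1.mapL G
  have h3 : (fun m : ℤ => G (lp.single 2 m (ψ m) : L2)) = fun _ => 0 := by
    funext m
    have e1 : (lp.single 2 m (ψ m) : L2) = (ψ m) • dl m := by
      unfold dl
      rw [← lp.single_smul, smul_eq_mul, mul_one]
    rw [e1, map_smul]
    by_cases hm : m ∈ Z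
    · rw [hψ m hm, zero_smul]
    · rw [hG0 m hm, smul_zero]
  rw [h3] at h2
  have h4 : G ψ = 0 := h2.unique hasSum_zero
  rw [hG, sub_apply, add_apply, sub_eq_zero] at h4
  exact h4

/-- **Few spectral points outside the bands.** -/
theorem few_abstract {X : Type} [NormedAddCommGroup X] [InnerProductSpace ℂ X] [CompleteSpace X]
    {H : X →L[ℂ] X} (hH : IsSelfAdjoint H) {p : ℝ[X]} {ι : Type} (Z : Finset ι)
    (ev : ι → X →ₗ[ℂ] ℂ)
    (hb : ∀ ψ : X, (∀ z ∈ Z, ev z ψ = 0) → ‖(aeval H p) ψ‖ ≤ 2 * ‖ψ‖) (t : Finset ℝ)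
    (ht : ∀ E ∈ t, E ∈ spectrum ℝ H ∧ 4 < (p.eval E) ^ 2) : t.card ≤ Z.card := by
  by_contra hcard
  rw [not_le] at hcard
  have htne : t.Nonempty := Finset.card_pos.1 (by omega)
  -- a uniform bound
  obtain ⟨E₀, hE₀, hmin⟩ := Finset.exists_min_image t (fun E => (p.eval E) ^ 2) htne
  set c₀ := (p.eval E₀) ^ 2 with hc₀
  have hc₀4 : 4 < c₀ := (ht E₀ hE₀).2
  set c := (4 + c₀) / 2 with hc
  have hc4 : 4 < c := by linarith
  have hcc : ∀ E ∈ t, c < (p.eval E) ^ 2 := fun E hE => by have := hmin E hE; linarith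
  set g : ℝ → ℝ := fun x => (p.eval x) ^ 2 with hg
  have hgc : Continuous g := by fun_prop
  have hpc : Continuous fun x => p.eval x := p.continuous
  -- the radius
  have hev : ∀ᶠ r in 𝓝[>] (0 : ℝ), (∀ E ∈ t, ∀ x, |x - E| ≤ 2 * r → c < g x) ∧
      ∀ E ∈ t, ∀ E' ∈ t, E ≠ E' → 4 * r ≤ |E - E'| := by
    apply Filter.Eventually.and
    · rw [Filter.eventually_all_finset]
      intro E hE
      have h1 : ∀ᶠ x in 𝓝 E, c < g x := hgc.continuousAt.eventually_const_lt (hcc E hE)
      obtain ⟨δ, hδ, h2⟩ := Metric.eventually_nhds_iff.1 h1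
      filter_upwards [Ioo_mem_nhdsGT (by positivity : (0 : ℝ) < δ / 2)] with r hr x hx
      apply h2
      rw [Real.dist_eq]
      linarith [hr.2]
    · rw [Filter.eventually_all_finset]
      intro E _
      rw [Filter.eventually_all_finset]
      intro E' _
      by_cases h : E = E'
      · exact Eventually.of_forall fun r hne => absurd h hne
      · have h1 : 0 < |E - E'| := abs_pos.2 (sub_ne_zero.2 h)
        filter_upwards [Ioo_mem_nhdsGT (by positivity : (0 : ℝ) < |E - E'| / 4)] with r hr _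
        linarith [hr.2]
  obtain ⟨r, ⟨hr1, hr2⟩, hr0⟩ := (hev.and self_mem_nhdsWithin).exists
  have hr0 : 0 < r := hr0
  -- the vectors
  have hχ : ∀ E : t, ∃ χ : X, (cfc (cut E.1 r) H) χ ≠ 0 := fun E =>
    exists_window hH (ht E.1 E.2).1 r
  choose χ hχ using hχ
  set φ : t → X := fun E => (cfc (cut E.1 r) H) (χ E) with hφ
  have horth : Pairwise fun E E' : t => inner ℂ (φ E) (φ E') = 0 := by
    intro E E' hne
    have hne' : E.1 ≠ E'.1 := fun h => hne (Subtype.ext h)
    have hs : IsSelfAdjoint (cfc (cut E.1 r) H) := cfc_predicate _ H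
    have h1 : inner ℂ (φ E) (φ E') = inner ℂ (χ E) ((cfc (cut E.1 r) H) (φ E')) :=
      (ContinuousLinearMap.isSelfAdjoint_iff_isSymmetric.1 hs) (χ E) (φ E')
    have h2 : (cfc (cut E.1 r) H) (φ E') = (cfc (fun x => cut E.1 r x * cut E'.1 r x) H) (χ E') := by
      rw [cfc_mul (cut E.1 r) (cut E'.1 r) H (cut_cont _ _).continuousOn
        (cut_cont _ _).continuousOn, mul_apply_eq_comp]
    have h3 : (fun x => cut E.1 r x * cut E'.1 r x) = fun _ => 0 := by
      funext x
      by_cases hx : 2 * r ≤ |x - E.1|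
      · rw [cut_eq_zero hr0 hx, zero_mul]
      · have hx' : 2 * r ≤ |x - E'.1| := by
          have h4 := hr2 E.1 E.2 E'.1 E'.2 hne'
          have h5 : |E.1 - E'.1| ≤ |x - E.1| + |x - E'.1| := by
            have : E.1 - E'.1 = (x - E'.1) - (x - E.1) := by ring
            rw [this, add_comm]
            exact abs_sub _ _
          rw [not_le] at hx
          linarith
        rw [cut_eq_zero hr0 hx', mul_zero]
    rw [h1, h2, h3, cfc_const_zero, zero_apply, inner_zero_right]
  have hli : LinearIndependent ℂ φ := linearIndependent_of_ne_zero_of_inner_eq_zero hχ horth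
  -- a nontrivial combination vanishing on `Z`
  set L : (t → ℂ) →ₗ[ℂ] (Z → ℂ) :=
    { toFun := fun a z => ∑ E, a E * ev z.1 (φ E)
      map_add' := fun a b => by
        ext z
        simp only [Pi.add_apply, add_mul, Finset.sum_add_distrib]
      map_smul' := fun s a => by
        ext z
        simp only [Pi.smul_apply, smul_eq_mul, RingHom.id_apply, Finset.mul_sum, mul_assoc] } with hL
  have hker : LinearMap.ker L ≠ ⊥ := by
    apply LinearMap.ker_ne_bot_of_finrank_lt
    simpa using hcard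
  obtain ⟨a, haL, ha0⟩ := (Submodule.ne_bot_iff _).1 hker
  set ψ : X := ∑ E, a E • φ E with hψ
  have hψ0 : ψ ≠ 0 := by
    intro h
    apply ha0
    funext E
    exact (Fintype.linearIndependent_iff.1 hli) a h E
  have hψZ : ∀ m ∈ Z, ev m ψ = 0 := by
    intro m hm
    have h1 : L a = 0 := haL
    have h2 := congrFun h1 ⟨m, hm⟩
    rw [hψ, map_sum]
    simpa [hL] using h2
  have hup : ‖(aeval H p) ψ‖ ≤ 2 * ‖ψ‖ := hb ψ hψZ
  -- the lower bound
  set c' := (4 + c) / 2 with hc'
  have hc'4 : 4 < c' := by linarith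
  have hc'c : c' < c := by linarith
  set h : ℝ → ℝ := fun x => min 1 (max 0 ((g x - c') / (c - c'))) with hh
  have hhc : Continuous h := by
    simp only [hh]
    fun_prop
  have hh1 : ∀ x, c ≤ g x → h x = 1 := by
    intro x hx
    simp only [hh]
    apply min_eq_left
    apply le_max_of_le_right
    rw [one_le_div (by linarith)]
    linarith
  have hh0 : ∀ x, c' * (h x * h x) ≤ (p.eval x * h x) * (p.eval x * h x) := by
    intro x
    by_cases hx : c' ≤ g x
    · have h1 := mul_le_mul_of_nonneg_right hx (mul_self_nonneg (h x))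
      simp only [hg] at h1
      nlinarith
    · have h1 : h x = 0 := by
        simp only [hh]
        rw [max_eq_left, min_eq_right zero_le_one]
        apply div_nonpos_of_nonpos_of_nonneg <;> linarith
      rw [h1]; simp
  have hhφ : ∀ E, (cfc h H) (φ E) = φ E := by
    intro E
    have h1 : (cfc h H) (φ E) = (cfc (fun x => h x * cut E.1 r x) H) (χ E) := by
      rw [cfc_mul h (cut E.1 r) H hhc.continuousOn (cut_cont _ _).continuousOn, mul_apply_eq_comp]
    have h2 : (fun x => h x * cut E.1 r x) = cut E.1 r := by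
      funext x
      by_cases hx : 2 * r ≤ |x - E.1|
      · rw [cut_eq_zero hr0 hx, mul_zero]
      · rw [not_le] at hx
        rw [hh1 x (hr1 E.1 E.2 x hx.le).le, one_mul]
    rw [h1, h2]
  have hhψ : (cfc h H) ψ = ψ := by
    rw [hψ, map_sum]
    apply Finset.sum_congr rfl
    intro E _
    rw [map_smul, hhφ]
  have hlow := cfc_norm_mono hH ψ (f := h) (g := fun x => p.eval x * h x) hhc (hpc.mul hhc) c'
    (fun x _ => hh0 x)
  rw [hhψ] at hlow
  have h1 : (cfc (fun x => p.eval x * h x) H) ψ = (aeval H p) ψ := by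
    rw [cfc_mul (fun x => p.eval x) h H hpc.continuousOn hhc.continuousOn, mul_apply_eq_comp, hhψ,
      cfc_polynomial p H hH]
  rw [h1] at hlow
  have h2 : ‖(aeval H p) ψ‖ ^ 2 ≤ (2 * ‖ψ‖) ^ 2 := pow_le_pow_left₀ (norm_nonneg _) hup 2
  have h3 : 0 < ‖ψ‖ ^ 2 := by
    have := norm_pos_iff.2 hψ0
    positivity
  nlinarith

/-- **Few spectral points outside the bands**, for operators on `ℓ²(ℤ)`. -/
theorem few_outside {H : L2 →L[ℂ] L2} (hH : IsSelfAdjoint H) {p : ℝ[X]} {q : ℤ} {Z : Finset ℤ}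
    (hmag : ∀ m, m ∉ Z → (aeval H p) (dl m) = dl (m + q) + dl (m - q)) (t : Finset ℝ)
    (ht : ∀ E ∈ t, E ∈ spectrum ℝ H ∧ 4 < (p.eval E) ^ 2) : t.card ≤ Z.card := by
  refine few_abstract hH Z (fun m =>
    { toFun := fun ψ => ψ m, map_add' := fun _ _ => rfl, map_smul' := fun _ _ => rfl })
    (fun ψ hψ => ?_) t ht
  have h2 : ‖SS (-q) ψ + SS q ψ‖ ≤ 2 * ‖ψ‖ := by
    refine (norm_add_le _ _).trans ?_
    have := norm_SS_le (-q) ψ
    have := norm_SS_le q ψ
    linarith
  rw [← magic_vec hmag hψ] at h2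
  exact h2

end Pool.Agent.H695R3.ST
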