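import Mathlib
import Pool.Agent.H695R3.ST.Cfc
import Pool.Agent.H695R3.ST.Op

set_option autoImplicit false

open Filter Topology Pool.Agent.Helper434.PSCplx

namespace Pool.Agent.H695R3.ST

lemma hasSum_sq (ψ : L2) : HasSum (fun n => ‖ψ n‖ ^ 2) (‖ψ‖ ^ 2) := by
  have h := lp.hasSum_norm two_pos ψ
  have h2 : (2 : ENNReal).toReal = ((2 : ℕ) : ℝ) := by norm_num
  simpa only [h2, Real.rpow_natCast] using h

lemma hasSum_shift (ψ : L2) (a : ℤ) : HasSum (fun n => ‖ψ (n + a)‖ ^ 2) (‖ψ‖ ^ 2) :=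
  (Equiv.addRight a).hasSum_iff.2 (hasSum_sq ψ)

/-- the truncation of `ψ` to the window `[j, j + R)`, translated by `s` -/
noncomputable def truncFun (ψ : ℤ → ℂ) (j s : ℤ) (R : ℕ) (k : ℤ) : ℂ :=
  if j ≤ k - s ∧ k - s < j + R then ψ (k - s) else 0

lemma trunc_sum (ψ : ℤ → ℂ) (j s : ℤ) (R : ℕ) (k : ℤ) :
    ‖truncFun ψ j s R k‖ ^ 2 =
      ∑ i ∈ Finset.range R, if k = j + i + s then ‖ψ (j + i)‖ ^ 2 else 0 := by
  unfold truncFun
  by_cases h : j ≤ k - s ∧ k - s < j + R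
  · rw [if_pos h]
    have hi : (((k - s - j).toNat : ℕ) : ℤ) = k - s - j := Int.toNat_of_nonneg (by omega)
    rw [Finset.sum_eq_single_of_mem (k - s - j).toNat (Finset.mem_range.2 (by omega))]
    · rw [if_pos (by omega), hi]
      congr 3
      ring
    · intro b _ hb
      rw [if_neg (by omega)]
  · rw [if_neg h, Finset.sum_eq_zero]
    · simp
    · intro i hi
      have := Finset.mem_range.1 hi
      rw [if_neg (by omega)]

lemma hasSum_trunc (ψ : ℤ → ℂ) (j s : ℤ) (R : ℕ) :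
    HasSum (fun k => ‖truncFun ψ j s R k‖ ^ 2) (∑ i ∈ Finset.range R, ‖ψ (j + i)‖ ^ 2) := by
  simp only [trunc_sum]
  exact hasSum_sum fun i _ => hasSum_ite_eq (j + i + s) _

lemma trunc_mem (ψ : ℤ → ℂ) (j s : ℤ) (R : ℕ) :
    Memℓp (E := fun _ : ℤ => ℂ) (truncFun ψ j s R) 2 := by
  apply memℓp_gen
  have h2 : (2 : ENNReal).toReal = ((2 : ℕ) : ℝ) := by norm_num
  simp only [h2, Real.rpow_natCast]
  exact (hasSum_trunc ψ j s R).summable

/-- the truncation as a vector -/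
noncomputable def truncVec (ψ : ℤ → ℂ) (j s : ℤ) (R : ℕ) : L2 :=
  ⟨truncFun ψ j s R, trunc_mem ψ j s R⟩

lemma norm_truncVec (ψ : ℤ → ℂ) (j s : ℤ) (R : ℕ) :
    ‖truncVec ψ j s R‖ ^ 2 = ∑ i ∈ Finset.range R, ‖ψ (j + i)‖ ^ 2 :=
  (hasSum_sq (truncVec ψ j s R)).unique (hasSum_trunc ψ j s R)

/-- formal `(H - E) ψ` -/
noncomputable def form (V : ℤ → ℝ) (E : ℝ) (ψ : ℤ → ℂ) (n : ℤ) : ℂ :=
  ψ (n + 1) + ψ (n - 1) + ((V n - E : ℝ) : ℂ) * ψ n

lemma norm_sub_sq_le (a b : ℂ) : ‖a - b‖ ^ 2 ≤ 2 * ‖a‖ ^ 2 + 2 * ‖b‖ ^ 2 := by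
  have h1 := norm_sub_le a b
  have h2 := pow_le_pow_left₀ (norm_nonneg _) h1 2
  nlinarith [sq_nonneg (‖a‖ - ‖b‖)]

/-- the error of the truncation -/
theorem truncVec_err {V V' : ℤ → ℝ} {H' : L2 →L[ℂ] L2} (hH' : IsSchr V' H') (ψ : ℤ → ℂ) (E : ℝ)
    (j s : ℤ) {R : ℕ} (hR : 2 ≤ R) (hV : ∀ n, j ≤ n → n < j + R → V' (n + s) = V n) :
    ‖H' (truncVec ψ j s R) - (E : ℂ) • truncVec ψ j s R‖ ^ 2 ≤
      2 * ∑ i ∈ Finset.range R, ‖form V E ψ (j + i)‖ ^ 2 +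
      2 * (‖ψ j‖ ^ 2 + ‖ψ (j - 1)‖ ^ 2 + ‖ψ (j + R)‖ ^ 2 + ‖ψ (j + R - 1)‖ ^ 2) := by
  set g := form V E ψ with hg
  set χ := truncVec ψ j s R with hχ
  have hχk : ∀ k, χ k = if j ≤ k - s ∧ k - s < j + R then ψ (k - s) else 0 := fun k => rfl
  have hval : ∀ k, (H' χ - (E : ℂ) • χ) k = χ (k + 1) + χ (k - 1) + ((V' k - E : ℝ) : ℂ) * χ k := by
    intro k
    rw [lp.coeFn_sub, Pi.sub_apply, lp.coeFn_smul, Pi.smul_apply, smul_eq_mul, hH']
    push_cast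
    ring
  set b : ℤ → ℝ := fun k =>
    (∑ i ∈ Finset.range R, if k = j + i + s then 2 * ‖g (j + i)‖ ^ 2 else 0) +
    ((if k = j - 1 + s then 2 * ‖ψ j‖ ^ 2 else 0) + (if k = j + s then 2 * ‖ψ (j - 1)‖ ^ 2 else 0) +
    (if k = j + R - 1 + s then 2 * ‖ψ (j + R)‖ ^ 2 else 0) +
    (if k = j + R + s then 2 * ‖ψ (j + R - 1)‖ ^ 2 else 0)) with hb
  have hbs : HasSum b (2 * ∑ i ∈ Finset.range R, ‖g (j + i)‖ ^ 2 +
      2 * (‖ψ j‖ ^ 2 + ‖ψ (j - 1)‖ ^ 2 + ‖ψ (j + R)‖ ^ 2 + ‖ψ (j + R - 1)‖ ^ 2)) := by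
    have t0 : HasSum (fun k : ℤ => ∑ i ∈ Finset.range R,
        if k = j + i + s then 2 * ‖g (j + i)‖ ^ 2 else 0)
        (∑ i ∈ Finset.range R, 2 * ‖g (j + i)‖ ^ 2) :=
      hasSum_sum fun i _ => hasSum_ite_eq (j + i + s) _
    have t1 : HasSum (fun k : ℤ => if k = j - 1 + s then 2 * ‖ψ j‖ ^ 2 else 0) (2 * ‖ψ j‖ ^ 2) :=
      hasSum_ite_eq (j - 1 + s) _
    have t2 : HasSum (fun k : ℤ => if k = j + s then 2 * ‖ψ (j - 1)‖ ^ 2 else 0)
        (2 * ‖ψ (j - 1)‖ ^ 2) := hasSum_ite_eq (j + s) _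
    have t3 : HasSum (fun k : ℤ => if k = j + R - 1 + s then 2 * ‖ψ (j + R)‖ ^ 2 else 0)
        (2 * ‖ψ (j + R)‖ ^ 2) := hasSum_ite_eq (j + R - 1 + s) _
    have t4 : HasSum (fun k : ℤ => if k = j + R + s then 2 * ‖ψ (j + R - 1)‖ ^ 2 else 0)
        (2 * ‖ψ (j + R - 1)‖ ^ 2) := hasSum_ite_eq (j + R + s) _
    have h1 : HasSum b _ := t0.add (((t1.add t2).add t3).add t4)
    have e : 2 * ∑ i ∈ Finset.range R, ‖g (j + i)‖ ^ 2 +
      2 * (‖ψ j‖ ^ 2 + ‖ψ (j - 1)‖ ^ 2 + ‖ψ (j + R)‖ ^ 2 + ‖ψ (j + R - 1)‖ ^ 2) =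
      (∑ i ∈ Finset.range R, 2 * ‖g (j + i)‖ ^ 2) +
        (2 * ‖ψ j‖ ^ 2 + 2 * ‖ψ (j - 1)‖ ^ 2 + 2 * ‖ψ (j + R)‖ ^ 2 +
          2 * ‖ψ (j + R - 1)‖ ^ 2) := by
      rw [← Finset.mul_sum]
      ring
    rw [e]
    exact h1
  have hwin : ∀ k, j ≤ k - s → k - s < j + R →
      2 * ‖g (k - s)‖ ^ 2 ≤ ∑ i ∈ Finset.range R, if k = j + i + s then 2 * ‖g (j + i)‖ ^ 2 else 0 := by
    intro k h1 h2
    have hi : (((k - s - j).toNat : ℕ) : ℤ) = k - s - j := Int.toNat_of_nonneg (by omega)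
    refine le_trans (le_of_eq ?_) (Finset.single_le_sum
      (f := fun i : ℕ => if k = j + i + s then 2 * ‖g (j + i)‖ ^ 2 else 0) (fun i _ => ?_)
      (Finset.mem_range.2 (by omega : (k - s - j).toNat < R)))
    · rw [if_pos (by omega), hi]
      congr 4
      ring
    · split_ifs <;> positivity
  have hsum0 : ∀ k, 0 ≤ ∑ i ∈ Finset.range R, if k = j + i + s then 2 * ‖g (j + i)‖ ^ 2 else 0 := by
    intro k
    apply Finset.sum_nonneg
    intro i _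
    split_ifs <;> positivity
  have hgval : ∀ k, j ≤ k - s → k - s < j + R →
      g (k - s) = ψ (k + 1 - s) + ψ (k - 1 - s) + ((V' k - E : ℝ) : ℂ) * ψ (k - s) := by
    intro k h1 h2
    rw [hg]
    unfold form
    have := hV (k - s) h1 h2
    rw [sub_add_cancel] at this
    rw [this]
    congr 3 <;> ring
  have hpt : ∀ k, ‖(H' χ - (E : ℂ) • χ) k‖ ^ 2 ≤ b k := by
    intro k
    rw [hval, hχk, hχk, hχk]
    simp only [hb]
    have hs0 := hsum0 k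
    have i1 : (0 : ℝ) ≤ if k = j - 1 + s then 2 * ‖ψ j‖ ^ 2 else 0 := by split_ifs <;> positivity
    have i2 : (0 : ℝ) ≤ if k = j + s then 2 * ‖ψ (j - 1)‖ ^ 2 else 0 := by
      split_ifs <;> positivity
    have i3 : (0 : ℝ) ≤ if k = j + R - 1 + s then 2 * ‖ψ (j + R)‖ ^ 2 else 0 := by
      split_ifs <;> positivity
    have i4 : (0 : ℝ) ≤ if k = j + R + s then 2 * ‖ψ (j + R - 1)‖ ^ 2 else 0 := by
      split_ifs <;> positivity
    by_cases c1 : k - s < j - 1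
    · rw [if_neg (by omega), if_neg (by omega), if_neg (by omega)]
      simp only [add_zero, mul_zero, norm_zero]
      have : (0 : ℝ) ^ 2 = 0 := by norm_num
      rw [this]
      linarith
    by_cases c2 : k - s = j - 1
    · rw [if_pos (by omega), if_neg (by omega), if_neg (by omega)]
      have e1 : k + 1 - s = j := by omega
      rw [e1, add_zero, mul_zero, add_zero]
      rw [if_pos (show k = j - 1 + s by omega)] at i1 ⊢
      linarith [sq_nonneg ‖ψ j‖]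
    by_cases c3 : k - s = j
    · rw [if_pos (by omega), if_neg (by omega), if_pos (by omega), add_zero]
      have e1 := hgval k (by omega) (by omega)
      have e2 := hwin k (by omega) (by omega)
      have e3 : ψ (k + 1 - s) + ((V' k - E : ℝ) : ℂ) * ψ (k - s) = g (k - s) - ψ (j - 1) := by
        rw [e1, show k - 1 - s = j - 1 by omega]
        ring
      rw [e3]
      have e4 := norm_sub_sq_le (g (k - s)) (ψ (j - 1))
      rw [if_pos (show k = j + s by omega)] at i2 ⊢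
      linarith
    by_cases c4 : k - s < j + R - 1
    · rw [if_pos (by omega), if_pos (by omega), if_pos (by omega), ← hgval k (by omega) (by omega)]
      have e2 := hwin k (by omega) (by omega)
      linarith [sq_nonneg ‖g (k - s)‖]
    by_cases c5 : k - s = j + R - 1
    · rw [if_neg (by omega), if_pos (by omega), if_pos (by omega), zero_add]
      have e1 := hgval k (by omega) (by omega)
      have e2 := hwin k (by omega) (by omega)
      have e3 : ψ (k - 1 - s) + ((V' k - E : ℝ) : ℂ) * ψ (k - s) = g (k - s) - ψ (j + R) := by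
        rw [e1, show k + 1 - s = j + R by omega]
        ring
      rw [e3]
      have e4 := norm_sub_sq_le (g (k - s)) (ψ (j + R))
      rw [if_pos (show k = j + R - 1 + s by omega)] at i3 ⊢
      linarith
    by_cases c6 : k - s = j + R
    · rw [if_neg (by omega), if_pos (by omega), if_neg (by omega), zero_add, mul_zero, add_zero]
      rw [show k - 1 - s = j + R - 1 by omega]
      rw [if_pos (show k = j + R + s by omega)] at i4 ⊢
      linarith [sq_nonneg ‖ψ (j + R - 1)‖]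
    · rw [if_neg (by omega), if_neg (by omega), if_neg (by omega)]
      simp only [add_zero, mul_zero, norm_zero]
      have : (0 : ℝ) ^ 2 = 0 := by norm_num
      rw [this]
      linarith
  exact hasSum_le hpt (hasSum_sq _) hbs

/-- **Transfer of spectra.** If every window of length `R > 16 / η²` of `V` occurs in `V'`, the
spectrum of `Δ + V` is in the `η`-neighbourhood of the spectrum of `Δ + V'`. -/
theorem transfer {V V' : ℤ → ℝ} {H H' : L2 →L[ℂ] L2} (hH : IsSchr V H) (hH' : IsSchr V' H')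
    (hs : IsSelfAdjoint H) (hs' : IsSelfAdjoint H') {η : ℝ} (hη : 0 < η) {R : ℕ} (hR2 : 2 ≤ R)
    (hR : 16 / η ^ 2 < R) (hwin : ∀ j : ℤ, ∃ s : ℤ, ∀ n, j ≤ n → n < j + R → V' (n + s) = V n)
    {E : ℝ} (hE : E ∈ spectrum ℝ H) : ∃ E' ∈ spectrum ℝ H', |E - E'| ≤ η := by
  obtain ⟨ψ, hψ0, hψ⟩ := weyl_fwd hs hE (by positivity : 0 < η / 2)
  set g : L2 := H ψ - (E : ℂ) • ψ with hg
  have hform : ∀ n, form V E ψ n = g n := by
    intro n
    rw [hg, lp.coeFn_sub, Pi.sub_apply, lp.coeFn_smul, Pi.smul_apply, smul_eq_mul, hH]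
    unfold form
    push_cast
    ring
  set a : ℤ → ℝ := fun j => ∑ i ∈ Finset.range R, ‖ψ (j + i)‖ ^ 2 with ha
  set b : ℤ → ℝ := fun j => 2 * ∑ i ∈ Finset.range R, ‖g (j + i)‖ ^ 2 +
      2 * (‖ψ j‖ ^ 2 + ‖ψ (j - 1)‖ ^ 2 + ‖ψ (j + R)‖ ^ 2 + ‖ψ (j + R - 1)‖ ^ 2) with hb
  have hsa : HasSum a (R * ‖ψ‖ ^ 2) := by
    have h1 : HasSum a (∑ _i ∈ Finset.range R, ‖ψ‖ ^ 2) :=
      hasSum_sum fun i _ => hasSum_shift ψ i
    simpa using h1
  have hsb : HasSum b (2 * (R * ‖g‖ ^ 2) + 8 * ‖ψ‖ ^ 2) := by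
    have h1 : HasSum (fun j => ∑ i ∈ Finset.range R, ‖g (j + (i : ℤ))‖ ^ 2)
        (∑ _i ∈ Finset.range R, ‖g‖ ^ 2) := hasSum_sum fun i _ => hasSum_shift g i
    have h2 : HasSum (fun j : ℤ => ‖ψ (j - 1)‖ ^ 2) (‖ψ‖ ^ 2) := hasSum_shift ψ (-1)
    have h3 : HasSum (fun j : ℤ => ‖ψ (j + R)‖ ^ 2) (‖ψ‖ ^ 2) := hasSum_shift ψ R
    have h4 : HasSum (fun j : ℤ => ‖ψ (j + R - 1)‖ ^ 2) (‖ψ‖ ^ 2) := by
      have := hasSum_shift ψ ((R : ℤ) - 1)
      simpa only [← add_sub_assoc] using this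
    have h5 : HasSum b _ :=
      (h1.mul_left 2).add (((((hasSum_sq ψ).add h2).add h3).add h4).mul_left 2)
    have e : 2 * (R * ‖g‖ ^ 2) + 8 * ‖ψ‖ ^ 2 = 2 * ∑ _i ∈ Finset.range R, ‖g‖ ^ 2 +
        2 * (‖ψ‖ ^ 2 + ‖ψ‖ ^ 2 + ‖ψ‖ ^ 2 + ‖ψ‖ ^ 2) := by
      rw [Finset.sum_const, Finset.card_range, nsmul_eq_mul]
      ring
    rw [e]
    exact h5
  have hex : ∃ j, a j ≠ 0 ∧ b j ≤ η ^ 2 * a j := by
    by_contra hc
    simp only [not_exists, not_and, not_le] at hc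
    have hle : ∀ j, η ^ 2 * a j ≤ b j := by
      intro j
      by_cases h0 : a j = 0
      · rw [h0, mul_zero]
        simp only [hb]
        positivity
      · exact (hc j h0).le
    have h1 := hasSum_le hle (hsa.mul_left (η ^ 2)) hsb
    have h2 : ‖g‖ ^ 2 ≤ (η / 2 * ‖ψ‖) ^ 2 := pow_le_pow_left₀ (norm_nonneg _) hψ 2
    have h3 : 0 < ‖ψ‖ ^ 2 := by
      have := norm_pos_iff.2 hψ0
      positivity
    rw [div_lt_iff₀ (by positivity)] at hR
    have hRn : (0 : ℝ) ≤ R := Nat.cast_nonneg R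
    have h4 : (R : ℝ) * ‖g‖ ^ 2 ≤ R * (η / 2 * ‖ψ‖) ^ 2 := mul_le_mul_of_nonneg_left h2 hRn
    have h5 : 16 * ‖ψ‖ ^ 2 < R * η ^ 2 * ‖ψ‖ ^ 2 := mul_lt_mul_of_pos_right hR h3
    nlinarith
  obtain ⟨j, hj0, hj⟩ := hex
  obtain ⟨s, hs2⟩ := hwin j
  have h1 := truncVec_err hH' ψ E j s hR2 hs2
  simp only [hform] at h1
  have h2 := norm_truncVec ψ j s R
  have h3 : truncVec ψ j s R ≠ 0 := by
    intro h
    rw [h, norm_zero] at h2
    apply hj0
    simp only [ha]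
    rw [← h2]
    norm_num
  refine weyl_bwd hs' h3 ?_
  apply le_of_sq_le_sq _ (by positivity)
  rw [mul_pow, h2]
  exact h1.trans hj

end Pool.Agent.H695R3.ST
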