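import Mathlib

set_option autoImplicit false

namespace Pool.Agent.H695R3.ST

/-- the potential of the problem -/
noncomputable def pot (lam α ω : ℝ) (n : ℤ) : ℝ :=
  if 1 - α ≤ Int.fract (ω + n * α) then lam else 0

lemma pot_floor {lam α ω : ℝ} (h0 : 0 < α) (h1 : α < 1) (n : ℤ) :
    pot lam α ω n = lam * ((⌊ω + ((n + 1 : ℤ) : ℝ) * α⌋ : ℝ) - ⌊ω + (n : ℝ) * α⌋) := by
  set x := ω + (n : ℝ) * α with hx
  have e1 : ω + ((n + 1 : ℤ) : ℝ) * α = x + α := by rw [hx]; push_cast; ring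
  rw [e1]
  unfold pot
  rw [← hx]
  have hf := Int.floor_add_fract x
  have hf0 := Int.fract_nonneg x
  have hf1 := Int.fract_lt_one x
  by_cases h : 1 - α ≤ Int.fract x
  · rw [if_pos h]
    have e2 : ⌊x + α⌋ = ⌊x⌋ + 1 := by
      rw [Int.floor_eq_iff]
      push_cast
      constructor <;> linarith
    rw [e2]
    push_cast
    ring
  · rw [if_neg h]
    rw [not_le] at h
    have e2 : ⌊x + α⌋ = ⌊x⌋ := by
      rw [Int.floor_eq_iff]
      constructor <;> linarith
    rw [e2, sub_self, mul_zero]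

variable {p q : ℕ}

/-- the periodic potential -/
noncomputable def Wp (lam : ℝ) (p q : ℕ) (n : ℤ) : ℝ :=
  lam * ((((n + 1) * p / q : ℤ) : ℝ) - ((n * p / q : ℤ) : ℝ))

/-- its translate -/
noncomputable def Wm (lam : ℝ) (p q : ℕ) (n : ℤ) : ℝ :=
  lam * (((((n + 1) * p - 1) / q : ℤ) : ℝ) - (((n * p - 1) / q : ℤ) : ℝ))

/-- the staircase with one defect -/
def Fs (p q : ℕ) (s : Bool) (n : ℤ) : ℤ := (n * p - (if decide (n < 0) = s then 1 else 0)) / q

/-- the potential with one defect -/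
noncomputable def Ws (lam : ℝ) (p q : ℕ) (s : Bool) (n : ℤ) : ℝ :=
  lam * ((Fs p q s (n + 1) : ℝ) - (Fs p q s n : ℝ))

lemma Wp_period (lam : ℝ) (hq : 0 < q) (n : ℤ) : Wp lam p q (n + q) = Wp lam p q n := by
  have hq' : (q : ℤ) ≠ 0 := by omega
  unfold Wp
  have e1 : (n + q + 1) * p / (q : ℤ) = (n + 1) * p / q + p := by
    rw [show (n + q + 1) * p = (n + 1) * p + p * (q : ℤ) by ring, Int.add_mul_ediv_right _ _ hq']
  have e2 : (n + q) * p / (q : ℤ) = n * p / q + p := by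
    rw [show (n + q) * p = n * p + p * (q : ℤ) by ring, Int.add_mul_ediv_right _ _ hq']
  rw [e1, e2]
  push_cast
  ring

lemma exists_c (hq : 0 < q) (hpq : Nat.Coprime p q) (m : ℤ) (R : ℕ) :
    ∃ c : ℕ, R < c ∧ (q : ℤ) ∣ m + c * p := by
  have hcop : IsCoprime (p : ℤ) (q : ℤ) := Nat.isCoprime_iff_coprime.2 hpq
  obtain ⟨u, v, huv⟩ := hcop
  set t : ℤ := |m * u| + R + 1 with ht
  have hqi : (1 : ℤ) ≤ q := by omega
  have h1 : (R : ℤ) < -(m * u) + q * t := by
    have h2 : m * u ≤ |m * u| := le_abs_self _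
    have h3 : 0 ≤ t := by positivity
    nlinarith
  refine ⟨(-(m * u) + q * t).toNat, ?_, ?_⟩
  · have h2 : ((-(m * u) + q * t).toNat : ℤ) = -(m * u) + q * t :=
      Int.toNat_of_nonneg (by omega)
    omega
  · rw [Int.toNat_of_nonneg (by omega)]
    refine ⟨m * v + t * p, ?_⟩
    linear_combination -m * huv

lemma div_sub_one {N : ℤ} (hq : 0 < q) (h : ¬ (q : ℤ) ∣ N) : (N - 1) / (q : ℤ) = N / q := by
  have hqi : (0 : ℤ) < q := by omega
  have h1 := Int.emod_add_mul_ediv N q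
  have h2 := Int.emod_nonneg N hqi.ne'
  have h3 := Int.emod_lt_of_pos N hqi
  have h4 : N % q ≠ 0 := fun h4 => h (Int.dvd_of_emod_eq_zero h4)
  have h5 : N - 1 = (N % q - 1) + (q : ℤ) * (N / q) := by linarith
  rw [h5, Int.add_mul_ediv_left _ _ hqi.ne', Int.ediv_eq_zero_of_lt (by omega) (by omega), zero_add]

lemma Wm_eq (lam : ℝ) (hq : 0 < q) {c : ℤ} (hc : (q : ℤ) ∣ c * p + 1) (n : ℤ) :
    Wm lam p q n = Wp lam p q (n + c) := by
  have hq' : (q : ℤ) ≠ 0 := by omega
  obtain ⟨N, hN⟩ := hc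
  unfold Wm Wp
  have e1 : (n + c + 1) * p / (q : ℤ) = ((n + 1) * p - 1) / q + N := by
    rw [show (n + c + 1) * p = ((n + 1) * p - 1) + N * (q : ℤ) by linear_combination hN,
      Int.add_mul_ediv_right _ _ hq']
  have e2 : (n + c) * p / (q : ℤ) = (n * p - 1) / q + N := by
    rw [show (n + c) * p = (n * p - 1) + N * (q : ℤ) by linear_combination hN,
      Int.add_mul_ediv_right _ _ hq']
  rw [e1, e2]
  push_cast
  ring

lemma Ws_true_pos (lam : ℝ) {n : ℤ} (hn : 0 ≤ n) : Ws lam p q true n = Wp lam p q n := by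
  unfold Ws Wp Fs
  rw [if_neg (by simp; omega), if_neg (by simp; omega), sub_zero, sub_zero]

lemma Ws_true_neg (lam : ℝ) {n : ℤ} (hn : n + 1 < 0) : Ws lam p q true n = Wm lam p q n := by
  unfold Ws Wm Fs
  rw [if_pos (by simp; omega), if_pos (by simp; omega)]

lemma Ws_false_pos (lam : ℝ) {n : ℤ} (hn : 0 ≤ n) : Ws lam p q false n = Wm lam p q n := by
  unfold Ws Wm Fs
  rw [if_pos (by simp; omega), if_pos (by simp; omega)]

lemma Ws_false_neg (lam : ℝ) {n : ℤ} (hn : n + 1 < 0) : Ws lam p q false n = Wp lam p q n := by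
  unfold Ws Wp Fs
  rw [if_neg (by simp; omega), if_neg (by simp; omega), sub_zero, sub_zero]

/-- the defect potential is a translate of the periodic one on both sides -/
lemma Ws_sides (lam : ℝ) (hq : 0 < q) (hpq : Nat.Coprime p q) (s : Bool) :
    (∃ c : ℤ, ∀ n : ℤ, 0 ≤ n → Ws lam p q s n = Wp lam p q (n + c)) ∧
    (∃ c : ℤ, ∀ n : ℤ, n + 1 < 0 → Ws lam p q s n = Wp lam p q (n + c)) := by
  obtain ⟨c, -, hc⟩ := exists_c hq hpq 1 0
  have hc' : (q : ℤ) ∣ (c : ℤ) * p + 1 := by rwa [add_comm] at hc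
  cases s with
  | true =>
    exact ⟨⟨0, fun n hn => by rw [Ws_true_pos lam hn, add_zero]⟩,
      ⟨c, fun n hn => by rw [Ws_true_neg lam hn, Wm_eq lam hq hc']⟩⟩
  | false =>
    exact ⟨⟨c, fun n hn => by rw [Ws_false_pos lam hn, Wm_eq lam hq hc']⟩,
      ⟨0, fun n hn => by rw [Ws_false_neg lam hn, add_zero]⟩⟩

/-- floors near rationals -/
lemma floor_near (hq : 0 < q) (N : ℤ) {t : ℝ} (h0 : 0 ≤ t) (h1 : t < 1 / q) :
    ⌊(N : ℝ) / q + t⌋ = N / (q : ℤ) := by
  have hqi : (0 : ℤ) < q := by omega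
  have hqr : (0 : ℝ) < q := by exact_mod_cast hq
  have e1 := Int.emod_add_mul_ediv N q
  have e2 := Int.emod_nonneg N hqi.ne'
  have e3 := Int.emod_lt_of_pos N hqi
  have e3' : N % q + 1 ≤ (q : ℤ) := by omega
  have r1 : ((N % q : ℤ) : ℝ) + (q : ℝ) * ((N / q : ℤ) : ℝ) = N := by exact_mod_cast e1
  have r2 : (0 : ℝ) ≤ ((N % q : ℤ) : ℝ) := by exact_mod_cast e2
  have r3 : ((N % q : ℤ) : ℝ) + 1 ≤ q := by exact_mod_cast e3'
  have r4 : (N : ℝ) / q = ((N / q : ℤ) : ℝ) + ((N % q : ℤ) : ℝ) / q := by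
    rw [← r1]; field_simp; ring
  rw [Int.floor_eq_iff, r4]
  constructor
  · have : 0 ≤ ((N % q : ℤ) : ℝ) / q := by positivity
    linarith
  · have : ((N % q : ℤ) : ℝ) / q + 1 / q ≤ 1 := by
      rw [← add_div, div_le_one hqr]
      exact r3
    linarith

/-- **Windows near rational frequencies.** -/
theorem window {lam α ω δ : ℝ} (h0 : 0 < α) (h1 : α < 1) (hq : 0 < q) (hpq : Nat.Coprime p q)
    (hα : α = (p : ℝ) / q + δ) {R : ℕ} (hR : (R : ℝ) * |δ| < 1 / q) (j : ℤ) :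
    ∃ c : ℤ, ∀ n : ℤ, j ≤ n → n < j + R →
      pot lam α ω n = Ws lam p q (decide (0 ≤ δ)) (n + c) := by
  have hqi : (0 : ℤ) < q := by omega
  have hqr : (0 : ℝ) < q := by exact_mod_cast hq
  set a : ℝ := ω + j * α with ha
  set m : ℤ := ⌊(q : ℝ) * a⌋ with hm
  set ρ : ℝ := a - m / q with hρ
  have hρ0 : 0 ≤ ρ := by
    have := Int.floor_le ((q : ℝ) * a)
    rw [hρ, sub_nonneg, div_le_iff₀ hqr]
    linarith
  have hρ1 : ρ < 1 / q := by
    have := Int.lt_floor_add_one ((q : ℝ) * a)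
    rw [hρ, sub_lt_iff_lt_add, ← add_div, lt_div_iff₀ hqr]
    linarith
  have hx : ∀ k : ℤ, ω + ((j + k : ℤ) : ℝ) * α = ((m + k * p : ℤ) : ℝ) / q + (ρ + k * δ) := by
    intro k
    rw [hρ, ha, hα]
    push_cast
    field_simp
    ring
  have hkb : ∀ k : ℤ, 0 ≤ k → k ≤ R → |(k : ℝ) * δ| < 1 / q := by
    intro k hk0 hkR
    rw [abs_mul]
    refine lt_of_le_of_lt ?_ hR
    apply mul_le_mul_of_nonneg_right _ (abs_nonneg _)
    rw [abs_of_nonneg (by exact_mod_cast hk0)]
    exact_mod_cast hkR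
  -- it suffices to describe the floors
  suffices hS : ∃ (c N : ℤ), ∀ k : ℤ, 0 ≤ k → k ≤ R →
      ⌊ω + ((j + k : ℤ) : ℝ) * α⌋ = Fs p q (decide (0 ≤ δ)) (k - c) + N by
    obtain ⟨c, N, hcN⟩ := hS
    refine ⟨-j - c, fun n hn1 hn2 => ?_⟩
    rw [pot_floor h0 h1]
    have e1 := hcN (n - j) (by omega) (by omega)
    have e2 := hcN (n - j + 1) (by omega) (by omega)
    rw [show j + (n - j) = n by ring] at e1
    rw [show j + (n - j + 1) = n + 1 by ring] at e2
    rw [e1, e2]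
    unfold Ws
    rw [show n - j - c = n + (-j - c) by ring, show n - j + 1 - c = n + (-j - c) + 1 by ring]
    push_cast
    ring
  by_cases hδ : 0 ≤ δ
  · have hdec : decide (0 ≤ δ) = true := by simpa using hδ
    rw [hdec]
    obtain ⟨c₁, hc₁R, hc₁⟩ := exists_c hq hpq (m + 1) R
    classical
    have hex : ∃ c : ℕ, (q : ℤ) ∣ (m + 1) + c * p ∧ (R < c ∨ 1 / (q : ℝ) ≤ ρ + (c : ℝ) * δ) :=
      ⟨c₁, hc₁, Or.inl hc₁R⟩
    set c := Nat.find hex with hc
    obtain ⟨⟨N, hN⟩, hc2⟩ := Nat.find_spec hex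
    rw [← hc] at hN hc2
    refine ⟨c, N, fun k hk0 hkR => ?_⟩
    have hkd := hkb k hk0 hkR
    have hkd0 : 0 ≤ (k : ℝ) * δ := mul_nonneg (by exact_mod_cast hk0) hδ
    rw [abs_of_nonneg hkd0] at hkd
    rw [hx]
    by_cases hup : 1 / (q : ℝ) ≤ ρ + k * δ
    · have e1 : ((m + k * p : ℤ) : ℝ) / q + (ρ + k * δ) =
          ((m + k * p + 1 : ℤ) : ℝ) / q + (ρ + k * δ - 1 / q) := by
        push_cast
        field_simp
        ring
      rw [e1, floor_near hq _ (by linarith) (by linarith)]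
      by_cases hkc : (c : ℤ) ≤ k
      · unfold Fs
        rw [if_neg (by simp; omega)]
        rw [show m + k * p + 1 = ((k - c) * p - 0) + N * (q : ℤ) by linear_combination hN,
          Int.add_mul_ediv_right _ _ hqi.ne']
      · rw [not_le] at hkc
        have hmin := Nat.find_min hex (m := k.toNat) (by rw [← hc]; omega)
        have hkn : ((k.toNat : ℕ) : ℤ) = k := Int.toNat_of_nonneg hk0
        have hkr : ((k.toNat : ℕ) : ℝ) = (k : ℝ) := by exact_mod_cast congrArg (Int.cast : ℤ → ℝ) hkn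
        have hnd : ¬ (q : ℤ) ∣ m + 1 + k * p := by
          intro hd
          apply hmin
          rw [hkn, hkr]
          exact ⟨hd, Or.inr hup⟩
        have e2 : m + k * p + 1 = m + 1 + k * p := by ring
        rw [e2, ← div_sub_one hq hnd]
        unfold Fs
        rw [if_pos (by simp; omega)]
        rw [show m + 1 + k * p - 1 = ((k - c) * p - 1) + N * (q : ℤ) by linear_combination hN,
          Int.add_mul_ediv_right _ _ hqi.ne']
    · rw [not_le] at hup
      rw [floor_near hq _ (by linarith) hup]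
      have hkc : k < c := by
        by_contra hcon
        rw [not_lt] at hcon
        rcases hc2 with h | h
        · omega
        · have : (c : ℝ) * δ ≤ k * δ := mul_le_mul_of_nonneg_right (by exact_mod_cast hcon) hδ
          linarith
      unfold Fs
      rw [if_pos (by simp; omega)]
      rw [show m + k * p = ((k - c) * p - 1) + N * (q : ℤ) by linear_combination hN,
        Int.add_mul_ediv_right _ _ hqi.ne']
  · have hdec : decide (0 ≤ δ) = false := by simpa using hδ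
    rw [hdec]
    rw [not_le] at hδ
    obtain ⟨c₁, hc₁R, hc₁⟩ := exists_c hq hpq m R
    classical
    have hex : ∃ c : ℕ, (q : ℤ) ∣ m + c * p ∧ (R < c ∨ ρ + (c : ℝ) * δ < 0) :=
      ⟨c₁, hc₁, Or.inl hc₁R⟩
    set c := Nat.find hex with hc
    obtain ⟨⟨N, hN⟩, hc2⟩ := Nat.find_spec hex
    rw [← hc] at hN hc2
    refine ⟨c, N, fun k hk0 hkR => ?_⟩
    have hkd := hkb k hk0 hkR
    have hkd0 : (k : ℝ) * δ ≤ 0 := mul_nonpos_of_nonneg_of_nonpos (by exact_mod_cast hk0) hδ.le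
    rw [abs_of_nonpos hkd0] at hkd
    rw [hx]
    by_cases hdn : ρ + k * δ < 0
    · have e1 : ((m + k * p : ℤ) : ℝ) / q + (ρ + k * δ) =
          ((m + k * p - 1 : ℤ) : ℝ) / q + (ρ + k * δ + 1 / q) := by
        push_cast
        field_simp
        ring
      rw [e1, floor_near hq _ (by linarith) (by linarith)]
      by_cases hkc : (c : ℤ) ≤ k
      · unfold Fs
        rw [if_pos (by simp; omega)]
        rw [show m + k * p - 1 = ((k - c) * p - 1) + N * (q : ℤ) by linear_combination hN,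
          Int.add_mul_ediv_right _ _ hqi.ne']
      · rw [not_le] at hkc
        have hmin := Nat.find_min hex (m := k.toNat) (by rw [← hc]; omega)
        have hkn : ((k.toNat : ℕ) : ℤ) = k := Int.toNat_of_nonneg hk0
        have hkr : ((k.toNat : ℕ) : ℝ) = (k : ℝ) := by exact_mod_cast congrArg (Int.cast : ℤ → ℝ) hkn
        have hnd : ¬ (q : ℤ) ∣ m + k * p := by
          intro hd
          apply hmin
          rw [hkn, hkr]
          exact ⟨hd, Or.inr hdn⟩
        rw [div_sub_one hq hnd]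
        unfold Fs
        rw [if_neg (by simp; omega)]
        rw [show m + k * p = ((k - c) * p - 0) + N * (q : ℤ) by linear_combination hN,
          Int.add_mul_ediv_right _ _ hqi.ne']
    · rw [not_lt] at hdn
      rw [floor_near hq _ hdn (by linarith)]
      have hkc : k < c := by
        by_contra hcon
        rw [not_lt] at hcon
        rcases hc2 with h | h
        · omega
        · have : (k : ℝ) * δ ≤ c * δ :=
            mul_le_mul_of_nonpos_right (by exact_mod_cast hcon) hδ.le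
          linarith
      unfold Fs
      rw [if_neg (by simp; omega)]
      rw [show m + k * p = ((k - c) * p - 0) + N * (q : ℤ) by linear_combination hN,
        Int.add_mul_ediv_right _ _ hqi.ne']

/-- Windows of the periodic potential occur near rational frequencies. -/
theorem window_periodic {lam α ω δ : ℝ} (h0 : 0 < α) (h1 : α < 1) (hq : 0 < q)
    (hpq : Nat.Coprime p q) (hα : α = (p : ℝ) / q + δ) {R : ℕ}
    (hR : ((2 * (R + q) : ℕ) : ℝ) * |δ| < 1 / q) (j : ℤ) :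
    ∃ e : ℤ, ∀ n : ℤ, j ≤ n → n < j + R → pot lam α ω (n + e) = Wp lam p q n := by
  have hqi : (0 : ℤ) < q := by omega
  obtain ⟨c, hc⟩ := window (lam := lam) (ω := ω) h0 h1 hq hpq hα hR 0
  obtain ⟨⟨c₁, hc₁⟩, ⟨c₂, hc₂⟩⟩ := Ws_sides lam hq hpq (decide (0 ≤ δ))
  have hsub : ∃ a c' : ℤ, ∀ n : ℤ, a ≤ n → n < a + (R + q : ℕ) →
      pot lam α ω n = Wp lam p q (n + c') := by
    by_cases hcc : c ≤ -((R + q : ℕ) : ℤ) - 1
    · refine ⟨0, c + c₂, fun n hn1 hn2 => ?_⟩
      rw [hc n hn1 (by push_cast at hn2 hcc ⊢; omega), hc₂ (n + c) (by omega), add_assoc]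
    · refine ⟨((R + q : ℕ) : ℤ), c + c₁, fun n hn1 hn2 => ?_⟩
      rw [hc n (by omega) (by push_cast at hn2 hcc ⊢; omega), hc₁ (n + c) (by omega), add_assoc]
  obtain ⟨a, c', hac⟩ := hsub
  set r : ℤ := (-c' - (a - j)) % q with hr
  have hr0 : 0 ≤ r := Int.emod_nonneg _ hqi.ne'
  have hr1 : r < q := Int.emod_lt_of_pos _ hqi
  have hdvd : (q : ℤ) ∣ (a - j) + r + c' := by
    have h2 := Int.emod_add_mul_ediv (-c' - (a - j)) q
    rw [← hr] at h2
    refine ⟨-((-c' - (a - j)) / q), ?_⟩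
    linear_combination h2
  refine ⟨a - j + r, fun n hn1 hn2 => ?_⟩
  rw [hac _ (by omega) (by push_cast; omega)]
  obtain ⟨t, ht⟩ := hdvd
  have hp : Function.Periodic (Wp lam p q) (q : ℤ) := Wp_period lam hq
  have e1 : n + (a - j + r) + c' = n + t * q := by linear_combination ht
  rw [e1]
  have := hp.int_mul t n
  rw [Int.cast_id] at this
  exact this

/-- the words of the periodic potential and of its translate are swapped -/
theorem swap (lam : ℝ) (hp0 : 0 < p) (hpq1 : p < q) (hpq : Nat.Coprime p q) :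
    ∃ c : ℕ, Wp lam p q c = Wp lam p q ((q : ℤ) - 1) ∧
      Wp lam p q (c + ((q : ℤ) - 1)) = Wp lam p q 0 ∧
      (∀ n : ℤ, 0 < n → n < (q : ℤ) - 1 → Wp lam p q (c + n) = Wp lam p q n) ∧
      Wp lam p q 0 = 0 ∧ Wp lam p q ((q : ℤ) - 1) = lam := by
  have hq : 0 < q := by omega
  have hqi : (0 : ℤ) < q := by omega
  obtain ⟨c, -, hc⟩ := exists_c hq hpq 1 0
  have hc' : (q : ℤ) ∣ (c : ℤ) * p + 1 := by rwa [add_comm] at hc
  have hcm : ∀ n : ℤ, Wp lam p q (c + n) = Wm lam p q n := by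
    intro n
    rw [Wm_eq lam hq hc', add_comm]
  have a0 : Wp lam p q 0 = 0 := by
    unfold Wp
    rw [zero_add, one_mul, zero_mul, Int.zero_ediv, Int.ediv_eq_zero_of_lt (by omega) (by omega)]
    simp
  have d1 : ((q : ℤ) - 1) * p / q = p - 1 := by
    rw [show ((q : ℤ) - 1) * p = ((q : ℤ) - p) + (p - 1) * q by ring,
      Int.add_mul_ediv_right _ _ hqi.ne', Int.ediv_eq_zero_of_lt (by omega) (by omega), zero_add]
  have a1 : Wp lam p q ((q : ℤ) - 1) = lam := by
    unfold Wp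
    rw [sub_add_cancel, d1, Int.mul_ediv_cancel_left _ hqi.ne']
    push_cast
    ring
  have b0 : Wm lam p q 0 = lam := by
    unfold Wm
    rw [zero_add, one_mul, zero_mul, Int.ediv_eq_zero_of_lt (by omega) (by omega),
      show (0 : ℤ) - 1 = ((q : ℤ) - 1) + (-1) * q by ring, Int.add_mul_ediv_right _ _ hqi.ne',
      Int.ediv_eq_zero_of_lt (by omega) (by omega)]
    push_cast
    ring
  have b1 : Wm lam p q ((q : ℤ) - 1) = 0 := by
    unfold Wm
    rw [sub_add_cancel, show (q : ℤ) * p - 1 = ((q : ℤ) - 1) + (p - 1) * q by ring,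
      Int.add_mul_ediv_right _ _ hqi.ne', Int.ediv_eq_zero_of_lt (by omega) (by omega),
      show ((q : ℤ) - 1) * p - 1 = ((q : ℤ) - p - 1) + (p - 1) * q by ring,
      Int.add_mul_ediv_right _ _ hqi.ne', Int.ediv_eq_zero_of_lt (by omega) (by omega)]
    simp
  have hnd : ∀ n : ℤ, 0 < n → n < q → ¬ (q : ℤ) ∣ n * p := by
    intro n hn0 hn1 hd
    have hcop : IsCoprime (q : ℤ) (p : ℤ) := (Nat.isCoprime_iff_coprime.2 hpq).symm
    have h2 := hcop.dvd_of_dvd_mul_right hd
    have := Int.le_of_dvd hn0 h2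
    omega
  refine ⟨c, ?_, ?_, ?_, a0, a1⟩
  · have := hcm 0
    rw [add_zero] at this
    rw [this, b0, a1]
  · rw [hcm, b1, a0]
  · intro n hn0 hn1
    rw [hcm]
    unfold Wm Wp
    rw [div_sub_one hq (hnd (n + 1) (by omega) (by omega)), div_sub_one hq (hnd n hn0 (by omega))]

end Pool.Agent.H695R3.ST
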