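import Mathlib
import Pool.Agent.H695R3.ST.Bloch
import Pool.Agent.H695R3.ST.Defect
import Pool.Agent.H695R3.ST.Trunc
import Pool.Agent.H695R3.ST.Win

set_option autoImplicit false

open Filter Topology Polynomial Pool.Agent.Helper434.PSCplx

namespace Pool.Agent.H695R3.ST

variable {p q : ℕ}

/-- the discriminant of the periodic potential -/
noncomputable def Dp (lam : ℝ) (p q : ℕ) : ℝ[X] := D (Wp lam p q) 0 q

lemma Dp_crit {lam : ℝ} (hlam : lam ≠ 0) (hp0 : 0 < p) (hpq1 : p < q) (hpq : Nat.Coprime p q)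
    (E : ℝ) (hE : ((Dp lam p q).eval E) ^ 2 ≤ 4) : (derivative (Dp lam p q)).eval E ≠ 0 := by
  intro h0
  have hq : 2 ≤ q := by omega
  have hV : ∀ n, Wp lam p q (n + q) = Wp lam p q n := Wp_period lam (by omega)
  obtain ⟨c, h1, h2, h3, h4, h5⟩ := swap lam hp0 hpq1 hpq
  exact not_scalar hq hV c h1 h2 h3 (by rw [h4, h5]; exact hlam.symm) E (crit hq hV 0 hE h0)

lemma Dp_zeros {lam : ℝ} (hlam : lam ≠ 0) (hp0 : 0 < p) (hpq1 : p < q) (hpq : Nat.Coprime p q) :
    ∃ z : Fin q → ℝ, StrictMono z ∧ (∀ i, (Dp lam p q).eval (z i) = 0) ∧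
      ∀ i j, i < j → ∃ ξ, z i < ξ ∧ ξ < z j ∧ 4 < ((Dp lam p q).eval ξ) ^ 2 :=
  zeros_gaps (by omega) 0 (Dp_crit hlam hp0 hpq1 hpq)

lemma ediv_step (hq : 0 < q) (A d : ℤ) (h0 : 0 ≤ d) (h1 : d ≤ q) :
    A / (q : ℤ) ≤ (A + d) / q ∧ (A + d) / (q : ℤ) ≤ A / q + 1 := by
  have hqi : (0 : ℤ) < q := by omega
  constructor
  · exact Int.ediv_le_ediv hqi (by omega)
  · calc (A + d) / (q : ℤ) ≤ (A + 1 * q) / q := Int.ediv_le_ediv hqi (by omega)
      _ = A / q + 1 := Int.add_mul_ediv_right _ _ hqi.ne'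

lemma Ws_bound {lam : ℝ} (hlam : 0 ≤ lam) (hp0 : 0 < p) (hpq1 : p < q) (s : Bool) (n : ℤ) :
    |Ws lam p q s n| ≤ lam := by
  have hq : 0 < q := by omega
  have key : Fs p q s n ≤ Fs p q s (n + 1) ∧ Fs p q s (n + 1) ≤ Fs p q s n + 1 := by
    unfold Fs
    set b0 : ℤ := if decide (n < 0) = s then 1 else 0 with hb0
    set b1 : ℤ := if decide (n + 1 < 0) = s then 1 else 0 with hb1
    have h0 : 0 ≤ b0 ∧ b0 ≤ 1 := by rw [hb0]; split_ifs <;> norm_num
    have h1 : 0 ≤ b1 ∧ b1 ≤ 1 := by rw [hb1]; split_ifs <;> norm_num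
    have e1 : (n + 1) * p - b1 = (n * p - b0) + (p + b0 - b1) := by ring
    rw [e1]
    exact ediv_step hq _ _ (by omega) (by omega)
  obtain ⟨k1, k2⟩ := key
  have r1 : (Fs p q s n : ℝ) ≤ Fs p q s (n + 1) := by exact_mod_cast k1
  have r2 : (Fs p q s (n + 1) : ℝ) ≤ Fs p q s n + 1 := by exact_mod_cast k2
  unfold Ws
  rw [abs_mul, abs_of_nonneg hlam]
  apply mul_le_of_le_one_right hlam
  rw [abs_of_nonneg (by linarith)]
  linarith

lemma magic_defect {lam : ℝ} (hp0 : 0 < p) (hpq1 : p < q) (hpq : Nat.Coprime p q) (s : Bool)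
    {H : L2 →L[ℂ] L2} (hH : IsSchr (Ws lam p q s) H) (m : ℤ)
    (hm : m ∉ Finset.Ico (-(q : ℤ)) q) :
    (aeval H (Dp lam p q)) (dl m) = dl (m + q) + dl (m - q) := by
  have hq : 0 < q := by omega
  have hV : ∀ n, Wp lam p q (n + q) = Wp lam p q n := Wp_period lam hq
  obtain ⟨⟨c₁, hc₁⟩, ⟨c₂, hc₂⟩⟩ := Ws_sides lam hq hpq s
  rw [Finset.mem_Ico, not_and_or, not_le, not_lt] at hm
  have key : ∃ c : ℤ, ∀ n : ℤ, m - q ≤ n → n < m + q → Ws lam p q s n = Wp lam p q (n + c) := by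
    rcases hm with h | h
    · exact ⟨c₂, fun n _ h2 => hc₂ n (by omega)⟩
    · exact ⟨c₁, fun n h1 _ => hc₁ n (by omega)⟩
  obtain ⟨c, hc⟩ := key
  have h1 : D (Ws lam p q s) m q = Dp lam p q := by
    have h2 : P (Ws lam p q s) m q = P (Wp lam p q) (m + c) q := by
      apply P_congr
      intro j hj
      rw [hc _ (by omega) (by omega)]
      congr 1
      ring
    unfold D Dp
    rw [h2]
    have h3 := D_const (by omega) hV (m + c)
    unfold D at h3 ⊢
    exact h3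
  rw [← h1]
  apply magic hH
  intro j hj
  rw [hc _ (by omega) (by omega), hc _ (by omega) (by omega), ← hV (m - q + j + c)]
  congr 1
  ring

/-- a finite set from a bound on its finite subsets -/
lemma exists_finset {S : Set ℝ} {N : ℕ} (h : ∀ t : Finset ℝ, (∀ E ∈ t, E ∈ S) → t.card ≤ N) :
    ∃ X : Finset ℝ, X.card ≤ N ∧ ∀ E ∈ S, E ∈ X := by
  have hfin : S.Finite := by
    by_contra hinf
    have hinf' : S.Infinite := hinf
    obtain ⟨t, ht1, ht2⟩ := hinf'.exists_subset_card_eq (N + 1)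
    have := h t fun E hE => ht1 hE
    omega
  refine ⟨hfin.toFinset, h _ fun E hE => ?_, fun E hE => ?_⟩
  · simpa using hE
  · simpa using hE

/-- norm one multiplier -/
lemma bloch_root {d : ℝ} (hd : d ^ 2 ≤ 4) :
    ∃ ζ : ℂ, ‖ζ‖ = 1 ∧ ζ ^ 2 - (d : ℂ) * ζ + 1 = 0 := by
  have h0 : 0 ≤ 4 - d ^ 2 := by linarith
  have hs := Real.sq_sqrt h0
  refine ⟨⟨d / 2, √(4 - d ^ 2) / 2⟩, ?_, ?_⟩
  · have h1 : Complex.normSq ⟨d / 2, √(4 - d ^ 2) / 2⟩ = 1 := by
      rw [Complex.normSq_mk]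
      nlinarith
    rw [Complex.normSq_eq_norm_sq] at h1
    have h2 := norm_nonneg (⟨d / 2, √(4 - d ^ 2) / 2⟩ : ℂ)
    nlinarith
  · have hs' : √(4 - d * d) * √(4 - d * d) = 4 - d * d := Real.mul_self_sqrt (by nlinarith)
    apply Complex.ext
    · simp [pow_two]
      nlinarith
    · simp [pow_two]
      ring

/-- **Points of the bands are near the spectrum.** -/
theorem near_bands {lam : ℝ} (hlam : 0 ≤ lam) (hp0 : 0 < p) (hpq1 : p < q)
    (hpq : Nat.Coprime p q) {η : ℝ} (hη : 0 < η) :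
    ∃ δ₀ : ℝ, 0 < δ₀ ∧ ∀ α : ℝ, 0 < α → α < 1 → |α - (p : ℝ) / q| < δ₀ → ∀ (ω : ℝ)
      (H : L2 →L[ℂ] L2), IsSchr (pot lam α ω) H → ∀ E : ℝ, ((Dp lam p q).eval E) ^ 2 ≤ 4 →
        ∃ E' ∈ spectrum ℝ H, |E - E'| ≤ η := by
  have hq : 0 < q := by omega
  have hqr : (0 : ℝ) < q := by exact_mod_cast hq
  obtain ⟨k, hk⟩ := exists_nat_gt (4 / η ^ 2)
  have hk0 : 0 < k := by
    rcases Nat.eq_zero_or_pos k with h | h
    · rw [h] at hk
      have : 0 < 4 / η ^ 2 := by positivity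
      simp at hk
      linarith
    · exact h
  set R : ℕ := k * q with hR
  set M : ℝ := ((2 * (R + q) : ℕ) : ℝ) with hM
  have hM0 : 0 < M := by
    rw [hM]
    exact_mod_cast (by omega : 0 < 2 * (R + q))
  refine ⟨1 / (q * M), by positivity, fun α h0 h1 hα ω H hH E hE => ?_⟩
  have hwin : M * |α - (p : ℝ) / q| < 1 / q := by
    calc M * |α - (p : ℝ) / q| < M * (1 / (q * M)) := mul_lt_mul_of_pos_left hα hM0
      _ = 1 / q := by field_simp
  obtain ⟨e, he⟩ := window_periodic (lam := lam) (ω := ω) h0 h1 hq hpq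
    (δ := α - (p : ℝ) / q) (by ring) hwin 0
  -- the Bloch wave
  obtain ⟨ζ, hζ1, hζ⟩ := bloch_root hE
  have haev : aeval (E : ℂ) (D (Wp lam p q) 0 q) = (((Dp lam p q).eval E : ℝ) : ℂ) := by
    have h3 := aeval_algebraMap_apply ℂ E (D (Wp lam p q) 0 q)
    rw [coe_aeval_eq_eval] at h3
    exact h3
  obtain ⟨u, hu0, hu, huq, huq1⟩ := exists_bloch (Wp lam p q) 0 q (E : ℂ) ζ (by rw [haev]; exact hζ)
  have hV : ∀ n, Wp lam p q (n + q) = Wp lam p q n := Wp_period lam hq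
  have hper : ∀ n : ℕ, u (n + q) = ζ * u n ∧ u (n + 1 + q) = ζ * u (n + 1) := by
    intro n
    induction n with
    | zero =>
      refine ⟨by simpa using huq, ?_⟩
      rw [show 0 + 1 + q = q + 1 by ring]
      simpa using huq1
    | succ n ih =>
      refine ⟨ih.2, ?_⟩
      have h2 : u (n + 1 + 1 + q) = u (n + q + 2) := by congr 1; ring
      rw [h2, hu (n + q), show n + q + 1 = n + 1 + q by ring, ih.1, ih.2, show n + 1 + 1 = n + 2 by rfl,
        hu n]
      have h3 : Wp lam p q (0 + ((n + q : ℕ) : ℤ)) = Wp lam p q (0 + (n : ℤ)) := by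
        rw [← hV (0 + (n : ℤ))]
        congr 1
        push_cast
        ring
      rw [h3]
      ring
  have hnorm : ∀ (l n : ℕ), ‖u (n + l * q)‖ = ‖u n‖ := by
    intro l
    induction l with
    | zero => intro n; simp
    | succ l ih =>
      intro n
      rw [show n + (l + 1) * q = (n + l * q) + q by ring, (hper _).1, norm_mul, hζ1, one_mul, ih]
  set S : ℝ := ‖u 0‖ ^ 2 + ‖u 1‖ ^ 2 with hS
  have hS0 : 0 < S := by
    rcases hu0 with h | h
    · have := norm_pos_iff.2 h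
      positivity
    · have := norm_pos_iff.2 h
      positivity
  set ψ : ℤ → ℂ := fun n => u (n + 1).toNat with hψ
  have hψn : ∀ n : ℕ, ψ n = u (n + 1) := by
    intro n
    simp only [hψ]
    congr 1
  have hψm : ψ (-1) = u 0 := by simp [hψ]
  have hform : ∀ i : ℕ, form (Wp lam p q) E ψ (0 + (i : ℤ)) = 0 := by
    intro i
    unfold form
    rw [zero_add]
    have e1 : ψ ((i : ℤ) + 1) = u (i + 2) := by
      have := hψn (i + 1)
      push_cast at this
      exact this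
    have e2 : ψ ((i : ℤ) - 1) = u i := by
      simp only [hψ]
      congr 1
      omega
    rw [e1, e2, hψn, hu i, zero_add]
    push_cast
    ring
  have hR2 : 2 ≤ R := by
    rw [hR]
    calc 2 ≤ q := by omega
      _ = 1 * q := (one_mul q).symm
      _ ≤ k * q := Nat.mul_le_mul_right q hk0
  have herr := truncVec_err hH ψ E 0 e hR2 (V := Wp lam p q) (fun n hn1 hn2 => he n hn1 hn2)
  have hz : ∑ i ∈ Finset.range R, ‖form (Wp lam p q) E ψ (0 + (i : ℤ))‖ ^ 2 = 0 := by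
    apply Finset.sum_eq_zero
    intro i _
    rw [hform, norm_zero]
    norm_num
  have b1 : ψ 0 = u 1 := by simpa using hψn 0
  have b2 : ‖ψ (0 + (R : ℤ))‖ = ‖u 1‖ := by
    rw [zero_add, hψn, hR, show k * q + 1 = 1 + k * q by ring, hnorm]
  have b3 : ‖ψ (0 + (R : ℤ) - 1)‖ = ‖u 0‖ := by
    have : ψ (0 + (R : ℤ) - 1) = u R := by
      simp only [hψ]
      congr 1
      omega
    rw [this, hR, show k * q = 0 + k * q by ring, hnorm]
  rw [hz, b1, b2, b3, zero_sub, hψm] at herr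
  have hlow : (k : ℝ) * S ≤ ‖truncVec ψ 0 e R‖ ^ 2 := by
    rw [norm_truncVec]
    have : ∀ l : ℕ, (l : ℝ) * S ≤ ∑ i ∈ Finset.range (l * q), ‖ψ (0 + (i : ℤ))‖ ^ 2 := by
      intro l
      induction l with
      | zero => simp
      | succ l ih =>
        rw [show (l + 1) * q = l * q + q by ring, Finset.sum_range_add]
        have h2 : S ≤ ∑ i ∈ Finset.range q, ‖ψ (0 + ((l * q + i : ℕ) : ℤ))‖ ^ 2 := by
          have h3 : ∑ i ∈ ({0, q - 1} : Finset ℕ), ‖ψ (0 + ((l * q + i : ℕ) : ℤ))‖ ^ 2 ≤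
              ∑ i ∈ Finset.range q, ‖ψ (0 + ((l * q + i : ℕ) : ℤ))‖ ^ 2 := by
            apply Finset.sum_le_sum_of_subset_of_nonneg
            · intro i hi
              simp only [Finset.mem_insert, Finset.mem_singleton] at hi
              rw [Finset.mem_range]
              omega
            · intro i _ _
              positivity
          rw [Finset.sum_pair (by omega)] at h3
          have e1 : ‖ψ (0 + ((l * q + 0 : ℕ) : ℤ))‖ = ‖u 1‖ := by
            rw [zero_add, hψn, show l * q + 0 + 1 = 1 + l * q by ring, hnorm]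
          have e2 : ‖ψ (0 + ((l * q + (q - 1) : ℕ) : ℤ))‖ = ‖u 0‖ := by
            rw [zero_add, hψn, show l * q + (q - 1) + 1 = 0 + (l + 1) * q by
              rw [add_mul, one_mul, zero_add]; omega, hnorm]
          rw [e1, e2] at h3
          rw [hS]
          linarith
        push_cast at h2 ⊢
        linarith
    exact this k
  have hne : truncVec ψ 0 e R ≠ 0 := by
    intro h
    rw [h, norm_zero] at hlow
    have : 0 < (k : ℝ) * S := mul_pos (by exact_mod_cast hk0) hS0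
    norm_num at hlow
    linarith
  have hpb : ∀ n, |pot lam α ω n| ≤ lam := by
    intro n
    unfold pot
    split_ifs
    · rw [abs_of_nonneg hlam]
    · rw [abs_zero]; exact hlam
  refine weyl_bwd (schr_sa hpb hH) hne ?_
  apply le_of_sq_le_sq _ (by positivity)
  rw [mul_pow]
  have h4 : 4 < k * η ^ 2 := by rwa [div_lt_iff₀ (by positivity)] at hk
  have h5 : η ^ 2 * (k * S) ≤ η ^ 2 * ‖truncVec ψ 0 e R‖ ^ 2 :=
    mul_le_mul_of_nonneg_left hlow (by positivity)
  have h6 : 4 * S ≤ k * η ^ 2 * S := mul_le_mul_of_nonneg_right h4.le hS0.le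
  have h7 : 2 * 0 + 2 * (‖u 1‖ ^ 2 + ‖u 0‖ ^ 2 + ‖u 1‖ ^ 2 + ‖u 0‖ ^ 2) = 4 * S := by
    rw [hS]; ring
  rw [h7] at herr
  linarith

end Pool.Agent.H695R3.ST
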