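import Mathlib
import Pool.Agent.H695R3.ST.Static

set_option autoImplicit false

open Filter Topology Polynomial Pool.Agent.Helper434.PSCplx

namespace Pool.Agent.H695R3.ST

variable {p q : ℕ}

lemma pot_bound {lam : ℝ} (hlam : 0 ≤ lam) (α ω : ℝ) (n : ℤ) : |pot lam α ω n| ≤ lam := by
  unfold pot
  split_ifs
  · rw [abs_of_nonneg hlam]
  · rw [abs_zero]; exact hlam

theorem near_defect {lam : ℝ} (hlam : 0 ≤ lam) (hp0 : 0 < p) (hpq1 : p < q)
    (hpq : Nat.Coprime p q) {Hd : Bool → L2 →L[ℂ] L2} (hHd : ∀ s, IsSchr (Ws lam p q s) (Hd s))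
    {η : ℝ} (hη : 0 < η) :
    ∃ δ₀ : ℝ, 0 < δ₀ ∧ ∀ α : ℝ, 0 < α → α < 1 → |α - (p : ℝ) / q| < δ₀ → ∀ (ω : ℝ)
      (H : L2 →L[ℂ] L2), IsSchr (pot lam α ω) H → ∀ E ∈ spectrum ℝ H,
        ∃ s, ∃ E' ∈ spectrum ℝ (Hd s), |E - E'| ≤ η := by
  have hq : 0 < q := by omega
  have hqr : (0 : ℝ) < q := by exact_mod_cast hq
  obtain ⟨R₀, hR₀⟩ := exists_nat_gt (16 / η ^ 2)
  set R := R₀ + 2 with hR
  have hR1 : 16 / η ^ 2 < (R : ℝ) := by
    rw [hR]; push_cast; linarith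
  have hRr : (0 : ℝ) < R := by rw [hR]; positivity
  refine ⟨1 / (q * R), by positivity, fun α h0 h1 hα ω H hH E hE => ?_⟩
  have hwin : (R : ℝ) * |α - (p : ℝ) / q| < 1 / q := by
    calc (R : ℝ) * |α - (p : ℝ) / q| < R * (1 / (q * R)) := mul_lt_mul_of_pos_left hα hRr
      _ = 1 / q := by field_simp
  refine ⟨decide (0 ≤ α - (p : ℝ) / q), transfer hH (hHd _)
    (schr_sa (pot_bound hlam α ω) hH) (schr_sa (Ws_bound hlam hp0 hpq1 _) (hHd _)) hη
    (by omega) hR1 (fun j => ?_) hE⟩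
  obtain ⟨c, hc⟩ := window (lam := lam) (ω := ω) h0 h1 hq hpq (δ := α - (p : ℝ) / q) (by ring)
    hwin j
  exact ⟨c, fun n hn1 hn2 => (hc n hn1 hn2).symm⟩

theorem exists_exceptional {lam : ℝ} (hlam : 0 ≤ lam) (hp0 : 0 < p) (hpq1 : p < q)
    (hpq : Nat.Coprime p q) {Hd : Bool → L2 →L[ℂ] L2} (hHd : ∀ s, IsSchr (Ws lam p q s) (Hd s)) :
    ∃ X : Finset ℝ, X.card ≤ 4 * q ∧
      ∀ s, ∀ E ∈ spectrum ℝ (Hd s), 4 < ((Dp lam p q).eval E) ^ 2 → E ∈ X := by
  have hcard : (Finset.Ico (-(q : ℤ)) q).card = 2 * q := by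
    rw [Int.card_Ico]; omega
  have key : ∀ s, ∃ X : Finset ℝ, X.card ≤ 2 * q ∧
      ∀ E ∈ {E | E ∈ spectrum ℝ (Hd s) ∧ 4 < ((Dp lam p q).eval E) ^ 2}, E ∈ X := by
    intro s
    apply exists_finset
    intro t ht
    rw [← hcard]
    exact few_outside (schr_sa (Ws_bound hlam hp0 hpq1 s) (hHd s))
      (magic_defect hp0 hpq1 hpq s (hHd s)) t ht
  obtain ⟨X₁, h1, h1'⟩ := key true
  obtain ⟨X₂, h2, h2'⟩ := key false
  refine ⟨X₁ ∪ X₂, ?_, fun s E hE hD => ?_⟩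
  · have := Finset.card_union_le X₁ X₂
    omega
  · rw [Finset.mem_union]
    cases s with
    | true => left; exact h1' E ⟨hE, hD⟩
    | false => right; exact h2' E ⟨hE, hD⟩

/-- **The spectrum near a rational frequency.** -/
theorem static {lam : ℝ} (hlam : 0 ≤ lam) (hp0 : 0 < p) (hpq1 : p < q) (hpq : Nat.Coprime p q) :
    ∃ X : Finset ℝ, X.card ≤ 4 * q ∧ ∀ η : ℝ, 0 < η → ∃ δ₀ : ℝ, 0 < δ₀ ∧
      ∀ α : ℝ, 0 < α → α < 1 → |α - (p : ℝ) / q| < δ₀ → ∀ (ω : ℝ) (H : L2 →L[ℂ] L2),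
        IsSchr (pot lam α ω) H →
        (∀ E : ℝ, ((Dp lam p q).eval E) ^ 2 ≤ 4 → ∃ E' ∈ spectrum ℝ H, |E - E'| ≤ η) ∧
        (∀ E ∈ spectrum ℝ H, (∃ E' : ℝ, ((Dp lam p q).eval E') ^ 2 ≤ 4 ∧ |E - E'| ≤ η) ∨
          ∃ x ∈ X, |E - x| ≤ η) := by
  have hex : ∀ s, ∃ H : L2 →L[ℂ] L2, IsSchr (Ws lam p q s) H := fun s => by
    obtain ⟨H, h1, -⟩ := exists_schr (Ws_bound hlam hp0 hpq1 s)
    exact ⟨H, h1⟩
  choose Hd hHd using hex
  obtain ⟨X, hX, hX'⟩ := exists_exceptional hlam hp0 hpq1 hpq hHd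
  refine ⟨X, hX, fun η hη => ?_⟩
  obtain ⟨δ₁, h1, h1'⟩ := near_bands hlam hp0 hpq1 hpq hη
  obtain ⟨δ₂, h2, h2'⟩ := near_defect hlam hp0 hpq1 hpq hHd hη
  refine ⟨min δ₁ δ₂, lt_min h1 h2, fun α e0 e1 hα ω H hH => ⟨?_, ?_⟩⟩
  · exact h1' α e0 e1 (hα.trans_le (min_le_left _ _)) ω H hH
  · intro E hE
    obtain ⟨s, E', hE', hd⟩ := h2' α e0 e1 (hα.trans_le (min_le_right _ _)) ω H hH E hE
    by_cases hD : ((Dp lam p q).eval E') ^ 2 ≤ 4
    · exact Or.inl ⟨E', hD, hd⟩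
    · exact Or.inr ⟨E', hX' s E' hE' (not_le.1 hD), hd⟩

/-! ### gaps -/

/-- `A` has `N` gaps of length at least `ε`. -/
def HasGaps (A : Set ℝ) (ε : ℝ) (N : ℕ) : Prop :=
  ∃ x y : Fin N → ℝ, Function.Injective x ∧ Function.Injective y ∧
    ∀ i, x i ∈ A ∧ y i ∈ A ∧ x i + ε ≤ y i ∧ ∀ t ∈ A, t ≤ x i ∨ y i ≤ t

/-- an interval avoiding the bands and the exceptional points, between two zeros -/
lemma free_interval (p : ℝ[X]) (X : Finset ℝ) {a b ξ : ℝ} (h1 : a < ξ) (h2 : ξ < b)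
    (h3 : 4 < (p.eval ξ) ^ 2) :
    ∃ y r : ℝ, 0 < r ∧ a ≤ y - r ∧ y + r ≤ b ∧
      ∀ t, |t - y| < r → 4 < (p.eval t) ^ 2 ∧ t ∉ X := by
  set O : Set ℝ := (Set.Ioo a b ∩ {t | 4 < (p.eval t) ^ 2}) with hO
  have hOo : IsOpen O := isOpen_Ioo.inter (isOpen_lt continuous_const (by fun_prop))
  have hξ : ξ ∈ O := ⟨⟨h1, h2⟩, h3⟩
  have hinf : O.Infinite := by
    have : (𝓝 ξ).NeBot := inferInstance
    exact infinite_of_mem_nhds ξ (hOo.mem_nhds hξ)
  obtain ⟨y, hyO, hyX⟩ := hinf.exists_notMem_finset X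
  have hopen : IsOpen (O \ (X : Set ℝ)) := hOo.sdiff X.finite_toSet.isClosed
  obtain ⟨r, hr0, hr⟩ := Metric.isOpen_iff.1 hopen y ⟨hyO, hyX⟩
  refine ⟨y, r / 2, by positivity, ?_, ?_, ?_⟩
  · have : y - r / 2 ∈ O \ (X : Set ℝ) := hr (by
      rw [Metric.mem_ball, Real.dist_eq, show y - r / 2 - y = -(r / 2) by ring, abs_neg,
        abs_of_pos (by positivity)]
      linarith)
    exact this.1.1.1.le
  · have : y + r / 2 ∈ O \ (X : Set ℝ) := hr (by
      rw [Metric.mem_ball, Real.dist_eq, show y + r / 2 - y = r / 2 by ring,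
        abs_of_pos (by positivity)]
      linarith)
    exact this.1.1.2.le
  · intro t ht
    have : t ∈ O \ (X : Set ℝ) := hr (by
      rw [Metric.mem_ball, Real.dist_eq]
      linarith)
    exact ⟨this.1.2, this.2⟩

/-- **Lower bound for the number of gaps.** -/
theorem lower_gaps (p : ℝ[X]) (X : Finset ℝ) {N : ℕ} (z : Fin (N + 1) → ℝ) (hz : StrictMono z)
    (hz0 : ∀ i, p.eval (z i) = 0)
    (hξ : ∀ i j, i < j → ∃ ξ, z i < ξ ∧ ξ < z j ∧ 4 < (p.eval ξ) ^ 2) :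
    ∃ η ε : ℝ, 0 < η ∧ 0 < ε ∧ ∀ A : Set ℝ, IsClosed A →
      (∀ E : ℝ, (p.eval E) ^ 2 ≤ 4 → ∃ E' ∈ A, |E - E'| ≤ η) →
      (∀ E ∈ A, (∃ E' : ℝ, (p.eval E') ^ 2 ≤ 4 ∧ |E - E'| ≤ η) ∨ ∃ x ∈ X, |E - x| ≤ η) →
      HasGaps A ε N := by
  have hfree : ∀ i : Fin N, ∃ y r : ℝ, 0 < r ∧ z i.castSucc ≤ y - r ∧ y + r ≤ z i.succ ∧
      ∀ t, |t - y| < r → 4 < (p.eval t) ^ 2 ∧ t ∉ X := by
    intro i
    obtain ⟨ξ, h1, h2, h3⟩ := hξ i.castSucc i.succ i.castSucc_lt_succ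
    exact free_interval p X h1 h2 h3
  choose y r hr0 hr1 hr2 hr3 using hfree
  have hρ : ∃ ρ : ℝ, 0 < ρ ∧ ∀ i, ρ ≤ r i := by
    rcases Nat.eq_zero_or_pos N with h | h
    · subst h
      exact ⟨1, one_pos, fun i => i.elim0⟩
    · have : Nonempty (Fin N) := ⟨⟨0, h⟩⟩
      obtain ⟨i₀, hi₀⟩ := Finite.exists_min r
      exact ⟨r i₀, hr0 i₀, hi₀⟩
  obtain ⟨ρ, hρ0, hρ⟩ := hρ
  refine ⟨ρ / 4, ρ, by positivity, hρ0, fun A hA h1 h2 => ?_⟩
  -- no spectrum near `y i`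
  have hfree : ∀ i, ∀ t ∈ A, ρ / 2 ≤ |t - y i| := by
    intro i t ht
    by_contra hc
    rw [not_le] at hc
    rcases h2 t ht with ⟨E', hE', hd⟩ | ⟨x, hx, hd⟩
    · have : |E' - y i| < r i := by
        have e1 : E' - y i = (t - y i) - (t - E') := by ring
        rw [e1]
        have := abs_sub (t - y i) (t - E')
        have := hρ i
        linarith
      have := (hr3 i E' this).1
      linarith
    · have : |x - y i| < r i := by
        have e1 : x - y i = (t - y i) - (t - x) := by ring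
        rw [e1]
        have := abs_sub (t - y i) (t - x)
        have := hρ i
        linarith
      exact (hr3 i x this).2 hx
  -- points of `A` near the zeros
  have hnear : ∀ i, ∃ a ∈ A, |z i - a| ≤ ρ / 4 := fun i => h1 (z i) (by rw [hz0]; norm_num)
  choose a haA ha using hnear
  have haL : ∀ i : Fin N, a i.castSucc ≤ y i := by
    intro i
    have e1 := ha i.castSucc
    have e2 := hr1 i
    have e3 := hρ i
    rw [abs_le] at e1
    linarith [e1.1]
  have haR : ∀ i : Fin N, y i ≤ a i.succ := by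
    intro i
    have e1 := ha i.succ
    have e2 := hr2 i
    have e3 := hρ i
    rw [abs_le] at e1
    linarith [e1.2]
  set xl : Fin N → ℝ := fun i => sSup (A ∩ Set.Iic (y i)) with hxl
  set yr : Fin N → ℝ := fun i => sInf (A ∩ Set.Ici (y i)) with hyr
  have hxA : ∀ i, xl i ∈ A ∩ Set.Iic (y i) := fun i =>
    (hA.inter isClosed_Iic).csSup_mem ⟨a i.castSucc, haA _, haL i⟩ ⟨y i, fun t ht => ht.2⟩
  have hyA : ∀ i, yr i ∈ A ∩ Set.Ici (y i) := fun i =>
    (hA.inter isClosed_Ici).csInf_mem ⟨a i.succ, haA _, haR i⟩ ⟨y i, fun t ht => ht.2⟩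
  have hxle : ∀ i, xl i + ρ / 2 ≤ y i := by
    intro i
    have e1 := hfree i _ (hxA i).1
    have e2 : xl i ≤ y i := (hxA i).2
    rw [abs_of_nonpos (by linarith)] at e1
    linarith
  have hyge : ∀ i, y i + ρ / 2 ≤ yr i := by
    intro i
    have e1 := hfree i _ (hyA i).1
    have e2 : y i ≤ yr i := (hyA i).2
    rw [abs_of_nonneg (by linarith)] at e1
    linarith
  have hmono : ∀ i j, i < j → y i < y j := by
    intro i j hij
    have e1 := hr2 i
    have e2 := hr1 j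
    have e3 : z i.succ ≤ z j.castSucc := hz.monotone (by
      rw [Fin.le_def]
      have : (i : ℕ) < j := hij
      simp
      omega)
    have e4 := hr0 i
    have e5 := hr0 j
    linarith
  have hxmono : StrictMono xl := by
    intro i j hij
    have e1 : a i.succ ≤ xl j := by
      apply le_csSup ⟨y j, fun t ht => ht.2⟩
      refine ⟨haA _, ?_⟩
      have e2 := ha i.succ
      rw [abs_le] at e2
      have e3 : z i.succ ≤ z j.castSucc := hz.monotone (by
        rw [Fin.le_def]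
        have : (i : ℕ) < j := hij
        simp
        omega)
      have e4 := hr1 j
      have e5 := hρ j
      show a i.succ ≤ y j
      linarith [e2.1]
    have e2 := haR i
    have e3 := hxle i
    linarith
  have hymono : StrictMono yr := by
    intro i j hij
    have e1 : yr i ≤ a i.succ := csInf_le ⟨y i, fun t ht => ht.2⟩ ⟨haA _, haR i⟩
    have e2 := ha i.succ
    rw [abs_le] at e2
    have e3 : z i.succ ≤ z j.castSucc := hz.monotone (by
      rw [Fin.le_def]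
      have : (i : ℕ) < j := hij
      simp
      omega)
    have e4 := hr1 j
    have e5 := hρ j
    have e6 := hyge j
    linarith [e2.1]
  refine ⟨xl, yr, hxmono.injective, hymono.injective, fun i => ⟨(hxA i).1, (hyA i).1, ?_, ?_⟩⟩
  · have := hxle i
    have := hyge i
    linarith
  · intro t ht
    rcases le_total t (y i) with h | h
    · left; exact le_csSup ⟨y i, fun t ht => ht.2⟩ ⟨ht, h⟩
    · right; exact csInf_le ⟨y i, fun t ht => ht.2⟩ ⟨ht, h⟩

/-- **Upper bound for the number of gaps.** -/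
theorem upper_gaps {p : ℝ[X]} (hp : 1 ≤ p.natDegree) (X : Finset ℝ) {ε η : ℝ} (hη : 0 < η)
    (hε : 4 * η < ε) {A : Set ℝ}
    (h1 : ∀ E : ℝ, (p.eval E) ^ 2 ≤ 4 → ∃ E' ∈ A, |E - E'| ≤ η)
    (h2 : ∀ E ∈ A, (∃ E' : ℝ, (p.eval E') ^ 2 ≤ 4 ∧ |E - E'| ≤ η) ∨ ∃ x ∈ X, |E - x| ≤ η)
    {N : ℕ} (hN : HasGaps A ε N) : N ≤ 2 * p.natDegree + X.card := by
  classical
  obtain ⟨x, y, hx, -, hxy⟩ := hN
  set P2 : ℝ[X] := p ^ 2 - C 4 with hP2
  have hdeg : P2.natDegree = 2 * p.natDegree := by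
    rw [hP2, natDegree_sub_C, natDegree_pow]
  have hP20 : P2 ≠ 0 := by
    intro h
    rw [h, natDegree_zero] at hdeg
    omega
  have hcen : ∀ i, ∃ c ∈ P2.roots.toFinset ∪ X, |x i - c| ≤ 2 * η := by
    intro i
    obtain ⟨hxA, hyA, hgap, hfree⟩ := hxy i
    rcases h2 (x i) hxA with ⟨E', hE', hd⟩ | ⟨c, hc, hd⟩
    · rw [abs_le] at hd
      have ht : 4 < (p.eval (x i + 2 * η)) ^ 2 := by
        by_contra hcon
        rw [not_lt] at hcon
        obtain ⟨E'', hE'', hd2⟩ := h1 _ hcon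
        rw [abs_le] at hd2
        rcases hfree E'' hE'' with h | h
        · linarith [hd2.2]
        · linarith [hd2.1]
      have hcont : ContinuousOn (fun t => (p.eval t) ^ 2) (Set.Icc E' (x i + 2 * η)) := by fun_prop
      have hiv := intermediate_value_Icc (by linarith [hd.1] : E' ≤ x i + 2 * η) hcont
      obtain ⟨b, hb, hb4⟩ := hiv ⟨hE', ht.le⟩
      refine ⟨b, ?_, ?_⟩
      · rw [Finset.mem_union]
        left
        rw [Multiset.mem_toFinset, mem_roots hP20, IsRoot.def, hP2, eval_sub, eval_pow, eval_C]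
        simp only at hb4
        linarith
      · rw [abs_le]
        constructor <;> linarith [hb.1, hb.2, hd.1, hd.2]
    · exact ⟨c, Finset.mem_union_right _ hc, by linarith⟩
  choose c hcm hcd using hcen
  have hinj : Function.Injective c := by
    intro i j hij
    by_contra hne
    have hxne : x i ≠ x j := fun h => hne (hx h)
    have hclose : |x i - x j| ≤ 4 * η := by
      have e1 : x i - x j = (x i - c i) - (x j - c j) := by rw [hij]; ring
      rw [e1]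
      have := abs_sub (x i - c i) (x j - c j)
      linarith [hcd i, hcd j]
    rw [abs_le] at hclose
    rcases lt_or_gt_of_ne hxne with h | h
    · rcases (hxy i).2.2.2 (x j) (hxy j).1 with h3 | h3
      · linarith
      · linarith [(hxy i).2.2.1, hclose.1]
    · rcases (hxy j).2.2.2 (x i) (hxy i).1 with h3 | h3
      · linarith
      · linarith [(hxy j).2.2.1, hclose.2]
  have hcard : N ≤ (P2.roots.toFinset ∪ X).card := by
    have h3 := Finset.card_le_card_of_injOn (s := (Finset.univ : Finset (Fin N)))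
      (t := P2.roots.toFinset ∪ X) c (fun i _ => hcm i) (hinj.injOn)
    simpa using h3
  have h4 := Finset.card_union_le P2.roots.toFinset X
  have h5 := Multiset.toFinset_card_le P2.roots
  have h6 := card_roots' P2
  omega

end Pool.Agent.H695R3.ST
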