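import Mathlib
import Pool.Agent.H695R3.ST.Near

set_option autoImplicit false

open Filter Topology Polynomial Pool.Agent.Helper434.PSCplx

namespace Pool.Agent.H695R3.ST

/-- the two spectra have different numbers of gaps at comparable scales -/
def Sep (lam : ℝ) (n : ℕ) (β α : ℝ) : Prop :=
  ∃ (N : ℕ) (ε : ℝ), 0 < ε ∧
    (∀ (ω : ℝ) (H : L2 →L[ℂ] L2), IsSchr (pot lam α ω) H → HasGaps (spectrum ℝ H) ε N) ∧
    (∀ (ω : ℝ) (H : L2 →L[ℂ] L2), IsSchr (pot lam β ω) H →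
      ¬ HasGaps (spectrum ℝ H) (ε / (n + 1)) N)

/-- Near every rational number. -/
theorem sep_near {lam : ℝ} (hlam : 0 < lam) {P Q : ℕ} (hP : 0 < P) (hPQ : P < Q)
    (hcop : Nat.Coprime P Q) (n : ℕ) :
    ∃ δ : ℝ, 0 < δ ∧ ∀ β : ℝ, 0 < β → β < 1 → |β - (P : ℝ) / Q| < δ →
      Sep lam n β (1 / (7 + β)) := by
  have hQ : 0 < Q := by omega
  have hcop2 : Nat.Coprime Q (7 * Q + P) := by
    rw [add_comm, Nat.coprime_add_mul_right_right]
    exact hcop.symm
  obtain ⟨N, hN⟩ : ∃ N, 7 * Q + P = N + 1 := ⟨7 * Q + P - 1, by omega⟩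
  obtain ⟨X₁, -, hX₁⟩ := static (lam := lam) hlam.le hQ (by omega : Q < 7 * Q + P) hcop2
  obtain ⟨z, hz, hz0, hξ⟩ := Dp_zeros (lam := lam) hlam.ne' hQ (by omega : Q < 7 * Q + P) hcop2
  obtain ⟨η, ε, hη, hε, hlow⟩ := lower_gaps (Dp lam Q (7 * Q + P)) X₁ (N := N)
    (fun i => z (Fin.cast hN.symm i)) (fun i j hij => hz (by exact hij)) (fun i => hz0 _)
    (fun i j hij => hξ _ _ (by exact hij))
  obtain ⟨δ₁, hδ₁, h1⟩ := hX₁ η hη
  obtain ⟨X₂, hX₂c, hX₂⟩ := static (lam := lam) hlam.le hP hPQ hcop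
  have hn : (0 : ℝ) < n + 1 := by positivity
  set η' : ℝ := ε / (n + 1) / 5 with hη'
  have hη'0 : 0 < η' := by positivity
  obtain ⟨δ₂, hδ₂, h2⟩ := hX₂ η' hη'0
  refine ⟨min δ₁ δ₂, lt_min hδ₁ hδ₂, fun β hβ0 hβ1 hβ => ⟨N, ε, hε, ?_, ?_⟩⟩
  · intro ω H hH
    have hα0 : (0 : ℝ) < 1 / (7 + β) := by positivity
    have hα1 : 1 / (7 + β) < 1 := by
      rw [div_lt_one (by positivity)]; linarith
    have hQr : (0 : ℝ) < Q := by exact_mod_cast hQ
    have hPr : (0 : ℝ) < P := by exact_mod_cast hP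
    have hα : |1 / (7 + β) - (Q : ℝ) / ((7 * Q + P : ℕ) : ℝ)| < δ₁ := by
      refine lt_of_le_of_lt ?_ (hβ.trans_le (min_le_left _ _))
      have e1 : 1 / (7 + β) - (Q : ℝ) / ((7 * Q + P : ℕ) : ℝ) =
          -(β - (P : ℝ) / Q) * (1 / ((7 + β) * (7 + (P : ℝ) / Q))) := by
        push_cast
        field_simp
        ring
      rw [e1, abs_mul, abs_neg]
      apply mul_le_of_le_one_right (abs_nonneg _)
      rw [abs_of_pos (by positivity), div_le_one (by positivity)]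
      have : 0 < (P : ℝ) / Q := by positivity
      nlinarith
    obtain ⟨a1, a2⟩ := h1 _ hα0 hα1 hα ω H hH
    exact hlow _ (spectrum.isClosed H) a1 a2
  · intro ω H hH hgaps
    obtain ⟨a1, a2⟩ := h2 β hβ0 hβ1 (hβ.trans_le (min_le_right _ _)) ω H hH
    have hdeg : (Dp lam P Q).natDegree = Q := (D_monic (Wp lam P Q) 0 hQ).2
    have hlt : 4 * η' < ε / (n + 1) := by
      have : 0 < ε / (n + 1) := by positivity
      rw [hη']
      linarith
    have hle := upper_gaps (p := Dp lam P Q) (by rw [hdeg]; exact hQ) X₂ hη'0 hlt a1 a2 hgaps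
    rw [hdeg] at hle
    omega

/-- Generic frequencies. -/
theorem generic {lam : ℝ} (hlam : 0 < lam) :
    ∀ᶠ β in residual ℝ, Irrational β ∧
      (0 < β → β < 1 → ∀ n, Sep lam n β (1 / (7 + β))) := by
  have hx : ∀ (x : ℚ) (n : ℕ), ∃ δ : ℝ, 0 < δ ∧ (0 < x → x < 1 →
      ∀ β : ℝ, 0 < β → β < 1 → |β - (x : ℝ)| < δ → Sep lam n β (1 / (7 + β))) := by
    intro x n
    by_cases h : 0 < x ∧ x < 1
    · obtain ⟨h0, h1⟩ := h
      have hnum : 0 < x.num := Rat.num_pos.2 h0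
      have hP : 0 < x.num.natAbs := Int.natAbs_pos.2 hnum.ne'
      have hPQ : x.num.natAbs < x.den := by
        have h2 : x.num < x.den := by
          exact Rat.num_lt_denom_iff.2 h1
        omega
      obtain ⟨δ, hδ, h3⟩ := sep_near hlam hP hPQ x.reduced n
      refine ⟨δ, hδ, fun _ _ β hb0 hb1 hb => h3 β hb0 hb1 ?_⟩
      have hcast : (x : ℝ) = (x.num.natAbs : ℝ) / x.den := by
        have e1 : (x : ℝ) = (x.num : ℝ) / (x.den : ℝ) := by
          exact_mod_cast (Rat.cast_def x (K := ℝ))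
        have e2 : ((x.num.natAbs : ℕ) : ℤ) = x.num := Int.natAbs_of_nonneg hnum.le
        have e3 : ((x.num.natAbs : ℕ) : ℝ) = (x.num : ℝ) := by
          rw [← Int.cast_natCast, e2]
        rw [e1, e3]
      rwa [hcast] at hb
    · exact ⟨1, one_pos, fun h0 h1 => absurd ⟨h0, h1⟩ h⟩
  choose δ hδ0 hδ using hx
  have hU : ∀ n, (⋃ x : ℚ, ⋃ _ : 0 < x ∧ x < 1, Metric.ball (x : ℝ) (δ x n)) ∪
      (Set.Iio (0 : ℝ) ∪ Set.Ioi 1) ∈ residual ℝ := by
    intro n
    apply residual_of_dense_open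
    · refine (isOpen_iUnion fun x => isOpen_iUnion fun _ => Metric.isOpen_ball).union
        (isOpen_Iio.union isOpen_Ioi)
    · rw [Metric.dense_iff]
      intro y r hr
      rcases lt_or_ge y 0 with hy | hy
      · exact ⟨y, Metric.mem_ball_self hr, Or.inr (Or.inl hy)⟩
      rcases lt_or_ge 1 y with hy1 | hy1
      · exact ⟨y, Metric.mem_ball_self hr, Or.inr (Or.inr hy1)⟩
      have hlt : max 0 (y - r) < min 1 (y + r) := by
        rw [max_lt_iff, lt_min_iff, lt_min_iff]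
        refine ⟨⟨?_, ?_⟩, ?_, ?_⟩ <;> linarith
      obtain ⟨x, hx1, hx2⟩ := exists_rat_btwn hlt
      rw [max_lt_iff] at hx1
      rw [lt_min_iff] at hx2
      refine ⟨x, ?_, Or.inl ?_⟩
      · rw [Metric.mem_ball, Real.dist_eq, abs_lt]
        constructor <;> linarith [hx1.2, hx2.2]
      · simp only [Set.mem_iUnion]
        exact ⟨x, ⟨by exact_mod_cast hx1.1, by exact_mod_cast hx2.1⟩,
          Metric.mem_ball_self (hδ0 x n)⟩
  have hall := eventually_countable_forall.2 hU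
  filter_upwards [eventually_residual_irrational, hall] with β hirr hβ
  refine ⟨hirr, fun hb0 hb1 n => ?_⟩
  rcases hβ n with h | h | h
  · simp only [Set.mem_iUnion] at h
    obtain ⟨x, ⟨hx0, hx1⟩, hx⟩ := h
    rw [Metric.mem_ball, Real.dist_eq] at hx
    exact hδ x n hx0 hx1 β hb0 hb1 hx
  · exact absurd h (not_lt.2 hb0.le)
  · exact absurd h (not_lt.2 hb1.le)

end Pool.Agent.H695R3.ST
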